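import Mathlib

/-!
# MP_182bbb_co : basic definitions (hypergraphs, copies, Turán numbers, expansions, tight trees)

A (finite) hypergraph on a vertex type `α` is given by its edge set `F : Finset (Finset α)`;
its vertex set is the union of its edges.
-/

open Finset

namespace MP_182bbb_co.H5

variable {α β : Type*} [DecidableEq α] [DecidableEq β]

/-- The vertex set of a hypergraph: the union of its edges. -/
def verts (F : Finset (Finset α)) : Finset α := F.biUnion id

/-- `F` is an `r`-graph: every edge has exactly `r` vertices. -/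
def IsUniform (r : ℕ) (F : Finset (Finset α)) : Prop := ∀ e ∈ F, e.card = r

/-- `G` contains a (not necessarily induced) copy of `F`: there is a map which is injective on the
vertices of `F` and sends every edge of `F` to an edge of `G`. -/
def ContainsCopy (F : Finset (Finset α)) (G : Finset (Finset β)) : Prop :=
  ∃ f : α → β, Set.InjOn f (verts F : Set α) ∧ ∀ e ∈ F, e.image f ∈ G

open Classical in
/-- The Turán number `ex_r(n, F)`: the largest number of edges of an `r`-graph on the vertex set
`Fin n` that contains no copy of `F`. -/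
noncomputable def ex (r n : ℕ) (F : Finset (Finset α)) : ℕ :=
  ((univ : Finset (Finset (Finset (Fin n)))).filter
    (fun G => IsUniform r G ∧ ¬ ContainsCopy F G)).sup Finset.card

/-- The expansion: every edge `e` of `F` is enlarged by `k` new vertices `(e, i)`, `i < k`,
different edges getting different new vertices. -/
def expansion (k : ℕ) (F : Finset (Finset α)) : Finset (Finset (α ⊕ (Finset α × Fin k))) :=
  F.image (fun e => e.image Sum.inl ∪ (univ : Finset (Fin k)).image (fun i => Sum.inr (e, i)))

/-- The shadow of an `r`-graph `F`: all sets obtained by removing one vertex from an edge, that is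
all `(r-1)`-element sets contained in an edge of `F`. -/
def shadow (F : Finset (Finset α)) : Finset (Finset α) :=
  F.biUnion (fun e => e.image (fun x => e.erase x))

/-- A tight tree (in the sense of the problem file): the edges can be listed as
`e_0, ..., e_{k-1}` (without repetition) so that for every `i ≥ 1` there is a `j < i` with
`e_i ∩ (e_0 ∪ ... ∪ e_{i-1}) ⊆ e_j`. -/
def IsTightTree (H : Finset (Finset α)) : Prop :=
  ∃ (k : ℕ) (e : Fin k → Finset α), Function.Injective e ∧ univ.image e = H ∧
    ∀ i : Fin k, 0 < (i : ℕ) → ∃ j < i, e i ∩ (Finset.Iio i).biUnion e ⊆ e j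

/-! ### A criterion for copies of `T^+` -/

lemma mem_verts {F : Finset (Finset α)} {x : α} : x ∈ verts F ↔ ∃ e ∈ F, x ∈ e := by
  simp [verts]

lemma mem_expansion_one {T : Finset (Finset α)} {e : Finset (α ⊕ (Finset α × Fin 1))} :
    e ∈ expansion 1 T ↔ ∃ s ∈ T, insert (Sum.inr (s, 0)) (s.image Sum.inl) = e := by
  unfold expansion
  simp only [mem_image]
  constructor
  · rintro ⟨s, hs, rfl⟩
    refine ⟨s, hs, ?_⟩
    ext x
    simp
  · rintro ⟨s, hs, rfl⟩
    refine ⟨s, hs, ?_⟩
    ext x
    simp

/-- `G` contains `T^+` as soon as there are an injective placement `g` of the vertices of `T` and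
an injective choice `h` of the expansion vertices. -/
lemma containsCopy_of {T : Finset (Finset α)} {G : Finset (Finset β)} (g : α → β)
    (h : Finset α → β) (hg : Set.InjOn g (verts T : Set α)) (hh : Set.InjOn h (T : Set (Finset α)))
    (hgh : ∀ x ∈ verts T, ∀ s ∈ T, g x ≠ h s)
    (hG : ∀ s ∈ T, insert (h s) (s.image g) ∈ G) :
    ContainsCopy (expansion 1 T) G := by
  refine ⟨Sum.elim g (fun p => h p.1), ?_, ?_⟩
  · intro x hx y hy hxy
    rw [mem_coe, mem_verts] at hx hy
    obtain ⟨e, he, hxe⟩ := hx
    obtain ⟨e', he', hye⟩ := hy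
    obtain ⟨s, hs, rfl⟩ := mem_expansion_one.1 he
    obtain ⟨s', hs', rfl⟩ := mem_expansion_one.1 he'
    simp only [mem_insert, mem_image] at hxe hye
    rcases hxe with rfl | ⟨x, hx, rfl⟩
    · rcases hye with rfl | ⟨y, hy, rfl⟩
      · simp only [Sum.elim_inr] at hxy
        rw [hh hs hs' hxy]
      · exact absurd hxy.symm (hgh y (mem_verts.2 ⟨s', hs', hy⟩) s hs)
    · rcases hye with rfl | ⟨y, hy, rfl⟩
      · exact absurd hxy (hgh x (mem_verts.2 ⟨s, hs, hx⟩) s' hs')
      · simp only [Sum.elim_inl] at hxy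
        rw [hg (mem_coe.2 (mem_verts.2 ⟨s, hs, hx⟩)) (mem_coe.2 (mem_verts.2 ⟨s', hs', hy⟩)) hxy]
  · intro e he
    obtain ⟨s, hs, rfl⟩ := mem_expansion_one.1 he
    rw [image_insert, image_image]
    exact hG s hs

/-- Conversely, a copy of `T^+` yields such placements. -/
lemma exists_of_containsCopy {T : Finset (Finset α)} {G : Finset (Finset β)}
    (hc : ContainsCopy (expansion 1 T) G) :
    ∃ (g : α → β) (h : Finset α → β), Set.InjOn g (verts T : Set α) ∧
      Set.InjOn h (T : Set (Finset α)) ∧ (∀ x ∈ verts T, ∀ s ∈ T, g x ≠ h s) ∧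
      (∀ s ∈ T, insert (h s) (s.image g) ∈ G) := by
  obtain ⟨f, hf, hG⟩ := hc
  have hl : ∀ x ∈ verts T, (Sum.inl x : α ⊕ (Finset α × Fin 1)) ∈ verts (expansion 1 T) := by
    intro x hx
    obtain ⟨s, hs, hxs⟩ := mem_verts.1 hx
    refine mem_verts.2 ⟨_, mem_expansion_one.2 ⟨s, hs, rfl⟩, ?_⟩
    simp [hxs]
  have hr : ∀ s ∈ T, (Sum.inr (s, 0) : α ⊕ (Finset α × Fin 1)) ∈ verts (expansion 1 T) := by
    intro s hs
    refine mem_verts.2 ⟨_, mem_expansion_one.2 ⟨s, hs, rfl⟩, ?_⟩
    simp
  refine ⟨fun x => f (Sum.inl x), fun s => f (Sum.inr (s, 0)), ?_, ?_, ?_, ?_⟩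
  · intro x hx y hy hxy
    have := hf (mem_coe.2 (hl x (mem_coe.1 hx))) (mem_coe.2 (hl y (mem_coe.1 hy))) hxy
    exact Sum.inl_injective this
  · intro x hx y hy hxy
    have := hf (mem_coe.2 (hr x (mem_coe.1 hx))) (mem_coe.2 (hr y (mem_coe.1 hy))) hxy
    have h2 := Sum.inr_injective this
    exact (Prod.ext_iff.1 h2).1
  · intro x hx s hs hxy
    have := hf (mem_coe.2 (hl x hx)) (mem_coe.2 (hr s hs)) hxy
    exact absurd this (by simp)
  · intro s hs
    have := hG _ (mem_expansion_one.2 ⟨s, hs, rfl⟩)
    rw [image_insert, image_image] at this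
    exact this

lemma ex_le {r n m : ℕ} {F : Finset (Finset α)}
    (h : ∀ G : Finset (Finset (Fin n)), IsUniform r G → ¬ ContainsCopy F G → G.card ≤ m) :
    ex r n F ≤ m := by
  classical
  unfold ex
  refine Finset.sup_le ?_
  intro G hG
  simp only [mem_filter, mem_univ, true_and] at hG
  exact h G hG.1 hG.2

lemma le_ex {r n : ℕ} {F : Finset (Finset α)} (G : Finset (Finset (Fin n)))
    (h1 : IsUniform r G) (h2 : ¬ ContainsCopy F G) : G.card ≤ ex r n F := by
  classical
  unfold ex
  refine Finset.le_sup (f := Finset.card) (s := ((univ : Finset (Finset (Finset (Fin n)))).filter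
    (fun G => IsUniform r G ∧ ¬ ContainsCopy F G))) ?_
  simp only [mem_filter, mem_univ, true_and]
  exact ⟨h1, h2⟩

end MP_182bbb_co.H5
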