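import Pool.Agent.Lib.MP_182bbb_co.H5.Pages

/-!
# Books, their shadows, and copies of the expansion of the shadow
-/

open Finset

namespace MP_182bbb_co.H5

variable {α V : Type*} [DecidableEq α] [DecidableEq V]

/-- all edges of `H` are triples containing the common pair `a ≠ b`. -/
structure IsBook (H : Finset (Finset α)) (a b : α) : Prop where
  ne : a ≠ b
  card : ∀ e ∈ H, e.card = 3
  memA : ∀ e ∈ H, a ∈ e
  memB : ∀ e ∈ H, b ∈ e

lemma IsBook.third {H : Finset (Finset α)} {a b : α} (h : IsBook H a b) {e : Finset α}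
    (he : e ∈ H) : ∃ v, v ≠ a ∧ v ≠ b ∧ e = {a, b, v} := by
  have h1 : (e \ {a, b}).card = 1 := by
    rw [card_sdiff_of_subset, card_pair h.ne, h.card e he]
    intro x hx
    simp only [mem_insert, mem_singleton] at hx
    rcases hx with rfl | rfl
    · exact h.memA e he
    · exact h.memB e he
  obtain ⟨v, hv⟩ := card_eq_one.1 h1
  have hve : v ∈ e \ {a, b} := by rw [hv]; exact mem_singleton_self v
  simp only [mem_sdiff, mem_insert, mem_singleton, not_or] at hve
  refine ⟨v, hve.2.1, hve.2.2, ?_⟩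
  ext x
  simp only [mem_insert, mem_singleton]
  constructor
  · intro hx
    by_cases hxa : x = a
    · exact Or.inl hxa
    by_cases hxb : x = b
    · exact Or.inr (Or.inl hxb)
    have : x ∈ e \ {a, b} := by simp [hx, hxa, hxb]
    rw [hv, mem_singleton] at this
    exact Or.inr (Or.inr this)
  · rintro (rfl | rfl | rfl)
    · exact h.memA e he
    · exact h.memB e he
    · exact hve.1

lemma IsBook.mem_shadow {H : Finset (Finset α)} {a b : α} (h : IsBook H a b) {s : Finset α}
    (hs : s ∈ shadow H) : s = {a, b} ∨ ∃ v, v ≠ a ∧ v ≠ b ∧ ({a, b, v} : Finset α) ∈ H ∧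
      (s = {a, v} ∨ s = {b, v}) := by
  unfold shadow at hs
  simp only [mem_biUnion, mem_image] at hs
  obtain ⟨e, he, x, hx, rfl⟩ := hs
  obtain ⟨v, hva, hvb, rfl⟩ := h.third he
  have hab := h.ne
  simp only [mem_insert, mem_singleton] at hx
  rcases hx with rfl | rfl | rfl
  · right
    refine ⟨v, hva, hvb, he, Or.inr ?_⟩
    ext y
    simp only [mem_erase, mem_insert, mem_singleton]
    constructor
    · rintro ⟨h1, h2⟩; tauto
    · rintro (rfl | rfl)
      · exact ⟨hab.symm, by tauto⟩
      · exact ⟨hva, by tauto⟩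
  · right
    refine ⟨v, hva, hvb, he, Or.inl ?_⟩
    ext y
    simp only [mem_erase, mem_insert, mem_singleton]
    constructor
    · rintro ⟨h1, h2⟩; tauto
    · rintro (rfl | rfl)
      · exact ⟨hab, by tauto⟩
      · exact ⟨hvb, by tauto⟩
  · left
    ext y
    simp only [mem_erase, mem_insert, mem_singleton]
    constructor
    · rintro ⟨h1, h2⟩; tauto
    · rintro (rfl | rfl)
      · exact ⟨hva.symm, by tauto⟩
      · exact ⟨hvb.symm, by tauto⟩

lemma IsBook.pair_mem_shadow {H : Finset (Finset α)} {a b : α} (h : IsBook H a b)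
    (hne : H.Nonempty) : ({a, b} : Finset α) ∈ shadow H := by
  obtain ⟨e, he⟩ := hne
  obtain ⟨v, hva, hvb, rfl⟩ := h.third he
  unfold shadow
  simp only [mem_biUnion, mem_image]
  refine ⟨_, he, v, by simp, ?_⟩
  ext y
  simp only [mem_erase, mem_insert, mem_singleton]
  constructor
  · rintro ⟨h1, h2⟩; tauto
  · rintro (rfl | rfl)
    · exact ⟨hva.symm, by tauto⟩
    · exact ⟨hvb.symm, by tauto⟩

lemma IsBook.left_mem_shadow {H : Finset (Finset α)} {a b v : α} (h : IsBook H a b)
    (hvb : v ≠ b) (he : ({a, b, v} : Finset α) ∈ H) :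
    ({a, v} : Finset α) ∈ shadow H := by
  unfold shadow
  simp only [mem_biUnion, mem_image]
  refine ⟨_, he, b, by simp, ?_⟩
  have hab := h.ne
  ext y
  simp only [mem_erase, mem_insert, mem_singleton]
  constructor
  · rintro ⟨h1, h2⟩; tauto
  · rintro (rfl | rfl)
    · exact ⟨hab, by tauto⟩
    · exact ⟨hvb, by tauto⟩

lemma IsBook.right_mem_shadow {H : Finset (Finset α)} {a b v : α} (h : IsBook H a b)
    (hva : v ≠ a) (he : ({a, b, v} : Finset α) ∈ H) :
    ({b, v} : Finset α) ∈ shadow H := by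
  unfold shadow
  simp only [mem_biUnion, mem_image]
  refine ⟨_, he, a, by simp, ?_⟩
  have hab := h.ne
  ext y
  simp only [mem_erase, mem_insert, mem_singleton]
  constructor
  · rintro ⟨h1, h2⟩; tauto
  · rintro (rfl | rfl)
    · exact ⟨hab.symm, by tauto⟩
    · exact ⟨hva, by tauto⟩

lemma IsBook.verts_cases {H : Finset (Finset α)} {a b : α} (h : IsBook H a b) {x : α}
    (hx : x ∈ verts (shadow H)) : x = a ∨ x = b ∨ (x ≠ a ∧ x ≠ b ∧ ({a, b, x} : Finset α) ∈ H) := by
  obtain ⟨s, hs, hxs⟩ := mem_verts.1 hx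
  rcases h.mem_shadow hs with rfl | ⟨v, hva, hvb, he, rfl | rfl⟩
  · simp only [mem_insert, mem_singleton] at hxs
    tauto
  · simp only [mem_insert, mem_singleton] at hxs
    rcases hxs with rfl | rfl
    · tauto
    · tauto
  · simp only [mem_insert, mem_singleton] at hxs
    rcases hxs with rfl | rfl
    · tauto
    · tauto

/-- No edge `{a, b, c}` of `G` extends to `N` disjoint pages on the spine `a b`. -/
def BookFree (G : Finset (Finset V)) (N : ℕ) : Prop :=
  ∀ a b c : V, ({a, b, c} : Finset V) ∈ G → ∀ U : Finset V, a ∉ U → b ∉ U → c ∉ U →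
    ¬ HasPages G a b U N

lemma ne_of_card_three {x y z : V} (h : ({x, y, z} : Finset V).card = 3) :
    x ≠ y ∧ x ≠ z ∧ y ≠ z := by
  refine ⟨?_, ?_, ?_⟩
  · rintro rfl
    have : ({x, x, z} : Finset V).card ≤ 2 := by
      rw [insert_eq_of_mem (mem_insert_self _ _)]
      exact card_le_two
    omega
  · rintro rfl
    have : ({x, y, x} : Finset V).card ≤ 2 := by
      rw [show ({x, y, x} : Finset V) = {x, y} by ext w; simp; tauto]
      exact card_le_two
    omega
  · rintro rfl
    have : ({x, y, y} : Finset V).card ≤ 2 := by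
      rw [show ({x, y, y} : Finset V) = {x, y} by ext w; simp]
      exact card_le_two
    omega

/-- A page system of the right size gives a copy of `(∂H)^+`. -/
theorem IsBook.bookFree {H : Finset (Finset α)} {a b : α} (hH : IsBook H a b)
    {G : Finset (Finset V)} (hG : IsUniform 3 G)
    (hfree : ¬ ContainsCopy (expansion 1 (shadow H)) G) : BookFree G H.card := by
  intro a' b' c' habc U haU hbU hcU hp
  apply hfree
  obtain ⟨I, f, g, hI, hP⟩ := hp
  obtain ⟨hab', hac', hbc'⟩ := ne_of_card_three (hG _ habc)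
  -- the bijection between the edges of `H` and the pages
  let e : H ≃ I := Finset.equivOfCardEq hI.symm
  let φ : Finset α → V := fun s => if h : s ∈ H then (e ⟨s, h⟩ : V) else a'
  have hφI : ∀ s ∈ H, φ s ∈ I := by
    intro s hs
    simp only [φ, dif_pos hs]
    exact (e ⟨s, hs⟩).2
  have hφinj : ∀ s ∈ H, ∀ t ∈ H, φ s = φ t → s = t := by
    intro s hs t ht hst
    simp only [φ, dif_pos hs, dif_pos ht] at hst
    have := e.injective (Subtype.ext hst)
    exact congrArg Subtype.val this
  have hIa : ∀ v ∈ I, v ≠ a' := fun v hv h => haU (h ▸ hP.subI v hv)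
  have hIb : ∀ v ∈ I, v ≠ b' := fun v hv h => hbU (h ▸ hP.subI v hv)
  have hIc : ∀ v ∈ I, v ≠ c' := fun v hv h => hcU (h ▸ hP.subI v hv)
  have hfa : ∀ v ∈ I, f v ≠ a' := fun v hv h => haU (h ▸ hP.subf v hv)
  have hfb : ∀ v ∈ I, f v ≠ b' := fun v hv h => hbU (h ▸ hP.subf v hv)
  have hfc : ∀ v ∈ I, f v ≠ c' := fun v hv h => hcU (h ▸ hP.subf v hv)
  have hga : ∀ v ∈ I, g v ≠ a' := fun v hv h => haU (h ▸ hP.subg v hv)
  have hgb : ∀ v ∈ I, g v ≠ b' := fun v hv h => hbU (h ▸ hP.subg v hv)
  have hgc : ∀ v ∈ I, g v ≠ c' := fun v hv h => hcU (h ▸ hP.subg v hv)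
  have hab := hH.ne
  -- the placement
  let pl : α → V := fun x => if x = a then a' else if x = b then b' else φ {a, b, x}
  let ch : Finset α → V := fun s => if s = {a, b} then c' else
    if a ∈ s then f (φ (insert b s)) else g (φ (insert a s))
  have pla : pl a = a' := by simp [pl]
  have plb : pl b = b' := by simp [pl, hab.symm]
  have plv : ∀ x, x ≠ a → x ≠ b → pl x = φ {a, b, x} := by
    intro x h1 h2
    simp [pl, h1, h2]
  have ch0 : ch {a, b} = c' := by simp [ch]
  have chA : ∀ v, v ≠ a → v ≠ b → ch {a, v} = f (φ {a, b, v}) := by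
    intro v h1 h2
    have h3 : ({a, v} : Finset α) ≠ {a, b} := by
      intro h
      have : v ∈ ({a, b} : Finset α) := by rw [← h]; simp
      simp only [mem_insert, mem_singleton] at this
      tauto
    have h4 : (insert b {a, v} : Finset α) = {a, b, v} := by
      ext x; simp; tauto
    simp only [ch]
    rw [if_neg h3, if_pos (by simp), h4]
  have chB : ∀ v, v ≠ a → v ≠ b → ch {b, v} = g (φ {a, b, v}) := by
    intro v h1 h2
    have h3 : ({b, v} : Finset α) ≠ {a, b} := by
      intro h
      have : v ∈ ({a, b} : Finset α) := by rw [← h]; simp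
      simp only [mem_insert, mem_singleton] at this
      tauto
    have h5 : a ∉ ({b, v} : Finset α) := by
      simp only [mem_insert, mem_singleton]
      intro h
      rcases h with h | h
      · exact hab h
      · exact h1 h.symm
    simp only [ch]
    rw [if_neg h3, if_neg h5]
  have key : ∀ x y : α, x ≠ a → x ≠ b → y ≠ a → y ≠ b →
      ({a, b, x} : Finset α) = {a, b, y} → x = y := by
    intro x y hxa hxb hya hyb h
    have : x ∈ ({a, b, y} : Finset α) := by rw [← h]; simp
    simp only [mem_insert, mem_singleton] at this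
    tauto
  refine containsCopy_of pl ch ?_ ?_ ?_ ?_
  · intro x hx y hy hxy
    rcases hH.verts_cases (mem_coe.1 hx) with rfl | rfl | ⟨hxa, hxb, hx⟩
    · rcases hH.verts_cases (mem_coe.1 hy) with rfl | rfl | ⟨hya, hyb, hy⟩
      · rfl
      · rw [pla, plb] at hxy; exact absurd hxy hab'
      · rw [pla, plv y hya hyb] at hxy
        exact absurd hxy.symm (hIa _ (hφI _ hy))
    · rcases hH.verts_cases (mem_coe.1 hy) with rfl | rfl | ⟨hya, hyb, hy⟩
      · rw [pla, plb] at hxy; exact absurd hxy.symm hab'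
      · rfl
      · rw [plb, plv y hya hyb] at hxy
        exact absurd hxy.symm (hIb _ (hφI _ hy))
    · rcases hH.verts_cases (mem_coe.1 hy) with rfl | rfl | ⟨hya, hyb, hy⟩
      · rw [pla, plv x hxa hxb] at hxy
        exact absurd hxy (hIa _ (hφI _ hx))
      · rw [plb, plv x hxa hxb] at hxy
        exact absurd hxy (hIb _ (hφI _ hx))
      · rw [plv x hxa hxb, plv y hya hyb] at hxy
        exact key x y hxa hxb hya hyb (hφinj _ hx _ hy hxy)
  · intro s hs t ht hst
    rcases hH.mem_shadow (mem_coe.1 hs) with rfl | ⟨v, hva, hvb, hv, rfl | rfl⟩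
    · rcases hH.mem_shadow (mem_coe.1 ht) with rfl | ⟨w, hwa, hwb, hw, rfl | rfl⟩
      · rfl
      · rw [ch0, chA w hwa hwb] at hst
        exact absurd hst.symm (hfc _ (hφI _ hw))
      · rw [ch0, chB w hwa hwb] at hst
        exact absurd hst.symm (hgc _ (hφI _ hw))
    · rcases hH.mem_shadow (mem_coe.1 ht) with rfl | ⟨w, hwa, hwb, hw, rfl | rfl⟩
      · rw [ch0, chA v hva hvb] at hst
        exact absurd hst (hfc _ (hφI _ hv))
      · rw [chA v hva hvb, chA w hwa hwb] at hst
        have h1 := hP.injf _ (hφI _ hv) _ (hφI _ hw) hst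
        rw [key v w hva hvb hwa hwb (hφinj _ hv _ hw h1)]
      · rw [chA v hva hvb, chB w hwa hwb] at hst
        exact absurd hst (hP.nfg _ (hφI _ hv) _ (hφI _ hw))
    · rcases hH.mem_shadow (mem_coe.1 ht) with rfl | ⟨w, hwa, hwb, hw, rfl | rfl⟩
      · rw [ch0, chB v hva hvb] at hst
        exact absurd hst (hgc _ (hφI _ hv))
      · rw [chB v hva hvb, chA w hwa hwb] at hst
        exact absurd hst.symm (hP.nfg _ (hφI _ hw) _ (hφI _ hv))
      · rw [chB v hva hvb, chB w hwa hwb] at hst
        have h1 := hP.injg _ (hφI _ hv) _ (hφI _ hw) hst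
        rw [key v w hva hvb hwa hwb (hφinj _ hv _ hw h1)]
  · intro x hx s hs
    rcases hH.verts_cases hx with rfl | rfl | ⟨hxa, hxb, hx⟩
    · rw [pla]
      rcases hH.mem_shadow hs with rfl | ⟨v, hva, hvb, hv, rfl | rfl⟩
      · rw [ch0]; exact hac'
      · rw [chA v hva hvb]; exact (hfa _ (hφI _ hv)).symm
      · rw [chB v hva hvb]; exact (hga _ (hφI _ hv)).symm
    · rw [plb]
      rcases hH.mem_shadow hs with rfl | ⟨v, hva, hvb, hv, rfl | rfl⟩
      · rw [ch0]; exact hbc'
      · rw [chA v hva hvb]; exact (hfb _ (hφI _ hv)).symm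
      · rw [chB v hva hvb]; exact (hgb _ (hφI _ hv)).symm
    · rw [plv x hxa hxb]
      rcases hH.mem_shadow hs with rfl | ⟨v, hva, hvb, hv, rfl | rfl⟩
      · rw [ch0]; exact hIc _ (hφI _ hx)
      · rw [chA v hva hvb]; exact hP.nf _ (hφI _ hx) _ (hφI _ hv)
      · rw [chB v hva hvb]; exact hP.ng _ (hφI _ hx) _ (hφI _ hv)
  · intro s hs
    rcases hH.mem_shadow hs with rfl | ⟨v, hva, hvb, hv, rfl | rfl⟩
    · rw [ch0, image_insert, image_singleton, pla, plb]
      rwa [show ({c', a', b'} : Finset V) = {a', b', c'} by ext x; simp; tauto]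
    · rw [chA v hva hvb, image_insert, image_singleton, pla, plv v hva hvb]
      have := hP.memA _ (hφI _ hv)
      rwa [show ({f (φ {a, b, v}), a', φ {a, b, v}} : Finset V)
        = {a', φ {a, b, v}, f (φ {a, b, v})} by ext x; simp; tauto]
    · rw [chB v hva hvb, image_insert, image_singleton, plb, plv v hva hvb]
      have := hP.memB _ (hφI _ hv)
      rwa [show ({g (φ {a, b, v}), b', φ {a, b, v}} : Finset V)
        = {b', φ {a, b, v}, g (φ {a, b, v})} by ext x; simp; tauto]

/-- A book is a tight tree. -/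
theorem IsBook.isTightTree {H : Finset (Finset α)} {a b : α} (hH : IsBook H a b) :
    IsTightTree H := by
  refine ⟨H.card, fun i => (H.equivFin.symm i : Finset α), ?_, ?_, ?_⟩
  · intro i j hij
    exact H.equivFin.symm.injective (Subtype.ext hij)
  · ext s
    simp only [mem_image, mem_univ, true_and]
    constructor
    · rintro ⟨i, rfl⟩
      exact (H.equivFin.symm i).2
    · intro hs
      exact ⟨H.equivFin ⟨s, hs⟩, by simp⟩
  · intro i hi
    have hpos : 0 < H.card := lt_of_le_of_lt (Nat.zero_le _) i.2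
    refine ⟨⟨0, hpos⟩, hi, ?_⟩
    intro x hx
    simp only [mem_inter, mem_biUnion, mem_Iio] at hx
    obtain ⟨hxi, j, hj, hxj⟩ := hx
    obtain ⟨v, hva, hvb, hv⟩ := hH.third (H.equivFin.symm i).2
    obtain ⟨w, hwa, hwb, hw⟩ := hH.third (H.equivFin.symm j).2
    have hne : v ≠ w := by
      rintro rfl
      have h1 : (H.equivFin.symm i : Finset α) = (H.equivFin.symm j : Finset α) := by
        rw [hv, hw]
      have := H.equivFin.symm.injective (Subtype.ext h1)
      exact absurd this hj.ne'
    have h0a := hH.memA _ (H.equivFin.symm ⟨0, hpos⟩).2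
    have h0b := hH.memB _ (H.equivFin.symm ⟨0, hpos⟩).2
    rw [hv] at hxi
    rw [hw] at hxj
    simp only [mem_insert, mem_singleton] at hxi hxj
    rcases hxi with rfl | rfl | rfl
    · exact h0a
    · exact h0b
    · exfalso
      rcases hxj with h | h | h
      · exact hva h
      · exact hvb h
      · exact hne h

end MP_182bbb_co.H5
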