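import Pool.Agent.Lib.MP_182bbb_co.H5.Book

/-!
# The core of the upper bound: the edges all of whose pairs have large codegree
-/

open Finset

namespace MP_182bbb_co.H5

variable {V : Type*} [DecidableEq V] [Fintype V]

/-- the link of a pair. -/
def lk (G : Finset (Finset V)) (x y : V) : Finset V :=
  univ.filter (fun z => ({x, y, z} : Finset V) ∈ G)

/-- the codegree of a set of vertices. -/
def cod (G : Finset (Finset V)) (p : Finset V) : ℕ := (G.filter (fun e => p ⊆ e)).card

omit [Fintype V] in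
lemma swap12 (x y z : V) : ({x, y, z} : Finset V) = {y, x, z} := by ext w; simp; tauto
omit [Fintype V] in
lemma swap23 (x y z : V) : ({x, y, z} : Finset V) = {x, z, y} := by ext w; simp; tauto
omit [Fintype V] in
lemma rot (x y z : V) : ({x, y, z} : Finset V) = {z, x, y} := by ext w; simp; tauto

omit [Fintype V] in
lemma exists_third {e : Finset V} (he : e.card = 3) {x y : V} (hxy : x ≠ y) (hx : x ∈ e)
    (hy : y ∈ e) : ∃ z, z ≠ x ∧ z ≠ y ∧ e = {x, y, z} := by
  have h : IsBook ({e} : Finset (Finset V)) x y :=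
    ⟨hxy, by simpa using he, by simpa using hx, by simpa using hy⟩
  exact h.third (mem_singleton_self e)

lemma card_lk {G : Finset (Finset V)} (hG : IsUniform 3 G) {x y : V} (hxy : x ≠ y) :
    (lk G x y).card = cod G {x, y} := by
  unfold cod
  refine card_bij (fun z _ => ({x, y, z} : Finset V)) ?_ ?_ ?_
  · intro z hz
    simp only [lk, mem_filter, mem_univ, true_and] at hz
    rw [mem_filter]
    refine ⟨hz, ?_⟩
    intro w hw
    simp only [mem_insert, mem_singleton] at hw ⊢
    tauto
  · intro z hz w hw h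
    simp only [lk, mem_filter, mem_univ, true_and] at hz hw
    obtain ⟨_, h1, h2⟩ := ne_of_card_three (hG _ hz)
    obtain ⟨_, h3, h4⟩ := ne_of_card_three (hG _ hw)
    have : z ∈ ({x, y, w} : Finset V) := by rw [← h]; simp
    simp only [mem_insert, mem_singleton] at this
    rcases this with h | h | h
    · exact absurd h.symm h1
    · exact absurd h.symm h2
    · exact h
  · intro e he
    rw [mem_filter] at he
    obtain ⟨z, _, _, hz⟩ := exists_third (hG e he.1) hxy (he.2 (by simp)) (he.2 (by simp))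
    refine ⟨z, ?_, hz.symm⟩
    simp only [lk, mem_filter, mem_univ, true_and]
    rw [← hz]; exact he.1

/-- The constant in the codegree bound for the core. -/
def KK (N : ℕ) : ℕ := (2 * (2 * N + 1) + 1) * (2 * N)

/-- In a book-free 3-graph every pair `a b` has few third vertices `z` with both `a z` and `b z` of
large codegree. -/
theorem card_good_le {G : Finset (Finset V)} (hG : IsUniform 3 G) {N : ℕ} (hfree : BookFree G N)
    (a b : V) :
    (univ.filter (fun z => ({a, b, z} : Finset V) ∈ G ∧ N + 2 ≤ (lk G a z).card ∧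
      N + 1 ≤ (lk G b z).card)).card ≤ KK N := by
  classical
  by_contra hcon
  push Not at hcon
  set W := univ.filter (fun z => ({a, b, z} : Finset V) ∈ G ∧ N + 2 ≤ (lk G a z).card ∧
      N + 1 ≤ (lk G b z).card) with hW
  have hWm : ∀ z, z ∈ W → ({a, b, z} : Finset V) ∈ G ∧ N + 2 ≤ (lk G a z).card ∧
      N + 1 ≤ (lk G b z).card := by
    intro z hz
    rw [hW, mem_filter] at hz
    exact hz.2
  have hA : ∀ z, ∃ A : Finset V, z ∈ W → A ⊆ (lk G a z).erase b ∧ A.card = N + 1 := by
    intro z
    by_cases hz : z ∈ W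
    · have h1 := (hWm z hz).2.1
      have h2 := pred_card_le_card_erase (s := lk G a z) (a := b)
      obtain ⟨A, hA, hAc⟩ := exists_subset_card_eq (s := (lk G a z).erase b) (n := N + 1) (by omega)
      exact ⟨A, fun _ => ⟨hA, hAc⟩⟩
    · exact ⟨∅, fun h => absurd h hz⟩
  have hB : ∀ z, ∃ B : Finset V, z ∈ W → B ⊆ (lk G b z).erase a ∧ B.card = N := by
    intro z
    by_cases hz : z ∈ W
    · have h1 := (hWm z hz).2.2
      have h2 := pred_card_le_card_erase (s := lk G b z) (a := a)
      obtain ⟨A, hA, hAc⟩ := exists_subset_card_eq (s := (lk G b z).erase a) (n := N) (by omega)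
      exact ⟨A, fun _ => ⟨hA, hAc⟩⟩
    · exact ⟨∅, fun h => absurd h hz⟩
  choose A hA using hA
  choose B hB using hB
  obtain ⟨I, hIW, hIc, hind⟩ := exists_independent (fun z => A z ∪ B z) (2 * N + 1) W.card W le_rfl
    (fun z hz => by
      have := card_union_le (A z) (B z)
      rw [(hA z hz).2, (hB z hz).2] at this
      show (A z ∪ B z).card ≤ 2 * N + 1
      omega)
  have hI : 2 * N < I.card := by
    by_contra h
    push Not at h
    have : (2 * (2 * N + 1) + 1) * I.card ≤ (2 * (2 * N + 1) + 1) * (2 * N) :=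
      Nat.mul_le_mul_left _ h
    have h3 : KK N = (2 * (2 * N + 1) + 1) * (2 * N) := rfl
    omega
  obtain ⟨c, hc⟩ : I.Nonempty := by rw [← card_pos]; omega
  have hcW := hIW hc
  have hAmem : ∀ z ∈ W, ∀ y ∈ A z, ({a, z, y} : Finset V) ∈ G ∧ y ≠ b := by
    intro z hz y hy
    have := (hA z hz).1 hy
    rw [mem_erase, lk, mem_filter] at this
    exact ⟨this.2.2, this.1⟩
  have hBmem : ∀ z ∈ W, ∀ y ∈ B z, ({b, z, y} : Finset V) ∈ G ∧ y ≠ a := by
    intro z hz y hy
    have := (hB z hz).1 hy
    rw [mem_erase, lk, mem_filter] at this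
    exact ⟨this.2.2, this.1⟩
  refine hfree a b c (hWm c hcW).1 (univ \ {a, b, c}) (by simp) (by simp) (by simp) ?_
  refine hasPages_of_lists N (univ \ {a, b, c}) (I.erase c) A B ?_ ?_ ?_ ?_ ?_ ?_ ?_ ?_ ?_ ?_
  · rw [card_erase_of_mem hc]; omega
  · intro z hz
    rw [mem_erase] at hz
    obtain ⟨_, h1, h2⟩ := ne_of_card_three (hG _ (hWm z (hIW hz.2)).1)
    simp only [mem_sdiff, mem_univ, true_and, mem_insert, mem_singleton, not_or]
    exact ⟨h1.symm, h2.symm, hz.1⟩
  · intro z hz y hy
    rw [mem_erase] at hz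
    obtain ⟨h1, h2⟩ := hAmem z (hIW hz.2) y hy
    obtain ⟨_, h3, h4⟩ := ne_of_card_three (hG _ h1)
    simp only [mem_sdiff, mem_univ, true_and, mem_insert, mem_singleton, not_or]
    refine ⟨h3.symm, h2, ?_⟩
    intro h
    exact hind z hz.2 c hc hz.1 (mem_union_left _ (h ▸ hy))
  · intro z hz y hy
    rw [mem_erase] at hz
    obtain ⟨h1, h2⟩ := hBmem z (hIW hz.2) y hy
    obtain ⟨_, h3, h4⟩ := ne_of_card_three (hG _ h1)
    simp only [mem_sdiff, mem_univ, true_and, mem_insert, mem_singleton, not_or]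
    refine ⟨h2, h3.symm, ?_⟩
    intro h
    exact hind z hz.2 c hc hz.1 (mem_union_right _ (h ▸ hy))
  · intro z hz
    rw [(hA z (hIW (mem_of_mem_erase hz))).2]
  · intro z hz
    rw [(hB z (hIW (mem_of_mem_erase hz))).2]
  · intro z hz w hw hwA
    have hzI := mem_of_mem_erase hz
    have hwI := mem_of_mem_erase hw
    by_cases hzw : z = w
    · obtain ⟨_, h3, h4⟩ := ne_of_card_three (hG _ (hAmem z (hIW hzI) w hwA).1)
      exact h4 hzw
    · exact hind z hzI w hwI hzw (mem_union_left _ hwA)
  · intro z hz w hw hwB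
    have hzI := mem_of_mem_erase hz
    have hwI := mem_of_mem_erase hw
    by_cases hzw : z = w
    · obtain ⟨_, h3, h4⟩ := ne_of_card_three (hG _ (hBmem z (hIW hzI) w hwB).1)
      exact h4 hzw
    · exact hind z hzI w hwI hzw (mem_union_right _ hwB)
  · intro z hz y hy
    exact (hAmem z (hIW (mem_of_mem_erase hz)) y hy).1
  · intro z hz y hy
    exact (hBmem z (hIW (mem_of_mem_erase hz)) y hy).1

/-- The core: edges all of whose pairs have codegree `≥ N+1`, at most one of them `= N+1`. -/
def core (G : Finset (Finset V)) (N : ℕ) : Finset (Finset V) :=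
  G.filter (fun e => (∀ p ∈ e.powersetCard 2, N + 1 ≤ cod G p) ∧
    ((e.powersetCard 2).filter (fun p => cod G p = N + 1)).card ≤ 1)

lemma core_subset (G : Finset (Finset V)) (N : ℕ) : core G N ⊆ G := filter_subset _ _

/-- All codegrees inside the core are bounded. -/
theorem cod_core_le {G : Finset (Finset V)} (hG : IsUniform 3 G) {N : ℕ} (hfree : BookFree G N)
    {a b : V} (hab : a ≠ b) : cod (core G N) {a, b} ≤ 2 * KK N := by
  classical
  rw [← card_lk (fun e he => hG e (core_subset G N he)) hab]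
  set P : V → V → Finset V := fun a b => univ.filter (fun z => ({a, b, z} : Finset V) ∈ G ∧
    N + 2 ≤ (lk G a z).card ∧ N + 1 ≤ (lk G b z).card) with hP
  have hsub : lk (core G N) a b ⊆ P a b ∪ P b a := by
    intro z hz
    simp only [lk, mem_filter, mem_univ, true_and] at hz
    have hzc := hz
    unfold core at hz
    rw [mem_filter] at hz
    obtain ⟨hzG, h1, h2⟩ := hz
    obtain ⟨_, haz, hbz⟩ := ne_of_card_three (hG _ hzG)
    have pa : ({a, z} : Finset V) ∈ ({a, b, z} : Finset V).powersetCard 2 := by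
      rw [mem_powersetCard]
      refine ⟨?_, card_pair haz⟩
      intro w hw
      simp only [mem_insert, mem_singleton] at hw ⊢
      tauto
    have pb : ({b, z} : Finset V) ∈ ({a, b, z} : Finset V).powersetCard 2 := by
      rw [mem_powersetCard]
      refine ⟨?_, card_pair hbz⟩
      intro w hw
      simp only [mem_insert, mem_singleton] at hw ⊢
      tauto
    have ha := h1 _ pa
    have hb := h1 _ pb
    rw [card_le_one] at h2
    have h3 : ¬ (cod G {a, z} = N + 1 ∧ cod G {b, z} = N + 1) := by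
      rintro ⟨h4, h5⟩
      have h6 := h2 _ (mem_filter.2 ⟨pa, h4⟩) _ (mem_filter.2 ⟨pb, h5⟩)
      have h7 : a ∈ ({b, z} : Finset V) := by rw [← h6]; simp
      simp only [mem_insert, mem_singleton] at h7
      rcases h7 with h7 | h7
      · exact hab h7
      · exact haz h7
    rw [mem_union, hP]
    simp only [mem_filter, mem_univ, true_and]
    rw [card_lk hG haz, card_lk hG hbz]
    by_cases h8 : cod G {a, z} = N + 1
    · right
      refine ⟨?_, ?_, by omega⟩
      · rw [swap12]; exact hzG
      · have : cod G {b, z} ≠ N + 1 := fun h => h3 ⟨h8, h⟩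
        omega
    · left
      exact ⟨hzG, by omega, by omega⟩
  have h1 := card_good_le hG hfree a b
  have h2 := card_good_le hG hfree b a
  have h3 := card_le_card hsub
  have h4 := card_union_le (P a b) (P b a)
  simp only [hP] at h3 h4
  omega

/-- A family of triples with bounded codegrees contains a large subfamily of triples pairwise
sharing at most one vertex. -/
theorem exists_linear {F : Finset (Finset V)} (hF : IsUniform 3 F) {C : ℕ}
    (hC : ∀ a b : V, a ≠ b → cod F {a, b} ≤ C) :
    ∃ S ⊆ F, F.card ≤ 3 * C * S.card ∧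
      ∀ s ∈ S, ∀ t ∈ S, ∀ x y : V, x ≠ y → x ∈ s → y ∈ s → x ∈ t → y ∈ t → s = t := by
  classical
  set Fam : Finset (Finset (Finset V)) := F.powerset.filter (fun S =>
    ∀ s ∈ S, ∀ t ∈ S, ∀ x y : V, x ≠ y → x ∈ s → y ∈ s → x ∈ t → y ∈ t → s = t) with hFam
  have hne : Fam.Nonempty := ⟨∅, by simp [hFam]⟩
  obtain ⟨S, hS, hmax⟩ := Fam.exists_max_image Finset.card hne
  rw [hFam, mem_filter, mem_powerset] at hS
  refine ⟨S, hS.1, ?_, hS.2⟩
  have hcov : F ⊆ S.biUnion (fun s => (s.powersetCard 2).biUnion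
      (fun p => F.filter (fun e => p ⊆ e))) := by
    intro e he
    have he3 := hF e he
    rw [mem_biUnion]
    by_cases heS : e ∈ S
    · refine ⟨e, heS, ?_⟩
      obtain ⟨x, y, z, hxy, hxz, hyz, rfl⟩ := card_eq_three.1 he3
      rw [mem_biUnion]
      refine ⟨{x, y}, ?_, ?_⟩
      · rw [mem_powersetCard]
        refine ⟨?_, card_pair hxy⟩
        intro w hw
        simp only [mem_insert, mem_singleton] at hw ⊢
        tauto
      · rw [mem_filter]
        refine ⟨he, ?_⟩
        intro w hw
        simp only [mem_insert, mem_singleton] at hw ⊢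
        tauto
    · by_contra hcon
      have hcon' : ∀ s ∈ S, ∀ x y : V, x ≠ y → x ∈ s → y ∈ s → x ∈ e → y ∈ e → False := by
        intro s hs x y hxy hxs hys hxe hye
        apply hcon
        refine ⟨s, hs, ?_⟩
        rw [mem_biUnion]
        refine ⟨{x, y}, ?_, ?_⟩
        · rw [mem_powersetCard]
          refine ⟨?_, card_pair hxy⟩
          intro w hw
          simp only [mem_insert, mem_singleton] at hw
          rcases hw with rfl | rfl <;> assumption
        · rw [mem_filter]
          refine ⟨he, ?_⟩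
          intro w hw
          simp only [mem_insert, mem_singleton] at hw
          rcases hw with rfl | rfl <;> assumption
      have hins : insert e S ∈ Fam := by
        rw [hFam, mem_filter, mem_powerset]
        refine ⟨insert_subset he hS.1, ?_⟩
        intro s hs t ht x y hxy hxs hys hxt hyt
        rcases mem_insert.1 hs with hse | hs1
        · rcases mem_insert.1 ht with hte | ht1
          · rw [hse, hte]
          · rw [hse] at hxs hys
            exact (hcon' t ht1 x y hxy hxt hyt hxs hys).elim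
        · rcases mem_insert.1 ht with hte | ht1
          · rw [hte] at hxt hyt
            exact (hcon' s hs1 x y hxy hxs hys hxt hyt).elim
          · exact hS.2 s hs1 t ht1 x y hxy hxs hys hxt hyt
      have := hmax _ hins
      rw [card_insert_of_notMem heS] at this
      omega
  refine (card_le_card hcov).trans ?_
  have h1 : ∀ s ∈ S, ((s.powersetCard 2).biUnion (fun p => F.filter (fun e => p ⊆ e))).card
      ≤ 3 * C := by
    intro s hs
    have hs3 := hF s (hS.1 hs)
    refine (card_biUnion_le_card_mul _ _ C ?_).trans ?_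
    · intro p hp
      rw [mem_powersetCard] at hp
      obtain ⟨x, y, hxy, rfl⟩ := card_eq_two.1 hp.2
      exact hC x y hxy
    · rw [card_powersetCard, hs3]
      simp [Nat.choose]
  refine (card_biUnion_le_card_mul _ _ _ h1).trans ?_
  rw [mul_comm]

/-- The shadow graph of a family of triples. -/
def shGraph (S : Finset (Finset V)) : SimpleGraph V where
  Adj x y := x ≠ y ∧ ∃ s ∈ S, x ∈ s ∧ y ∈ s
  symm := ⟨fun x y ⟨h, s, hs, hx, hy⟩ => ⟨h.symm, s, hs, hy, hx⟩⟩
  loopless := ⟨fun _ h => h.1 rfl⟩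

/-- In the shadow graph of a linear family of edges of a book-free graph, every edge has few
common neighbours. -/
theorem card_common_le {G : Finset (Finset V)} (hG : IsUniform 3 G) {N : ℕ}
    (hfree : BookFree G N) {S : Finset (Finset V)} (hSG : S ⊆ G)
    (hlin : ∀ s ∈ S, ∀ t ∈ S, ∀ x y : V, x ≠ y → x ∈ s → y ∈ s → x ∈ t → y ∈ t → s = t)
    {a b : V} (hab : (shGraph S).Adj a b) (W : Finset V)
    (hW : ∀ v ∈ W, (shGraph S).Adj a v ∧ (shGraph S).Adj b v) : W.card ≤ 7 * N := by
  classical
  obtain ⟨hne, s0, hs0, has, hbs⟩ := hab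
  obtain ⟨c, hca, hcb, rfl⟩ := exists_third (hG _ (hSG hs0)) hne has hbs
  have hf : ∀ v, ∃ w, v ∈ W → (w ≠ a ∧ w ≠ v ∧ ({a, v, w} : Finset V) ∈ S) := by
    intro v
    by_cases hv : v ∈ W
    · obtain ⟨h1, s, hs, h2, h3⟩ := (hW v hv).1
      obtain ⟨w, hwa, hwv, hw⟩ := exists_third (hG _ (hSG hs)) h1 h2 h3
      exact ⟨w, fun _ => ⟨hwa, hwv, hw ▸ hs⟩⟩
    · exact ⟨a, fun h => absurd h hv⟩
  have hg : ∀ v, ∃ w, v ∈ W → (w ≠ b ∧ w ≠ v ∧ ({b, v, w} : Finset V) ∈ S) := by
    intro v
    by_cases hv : v ∈ W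
    · obtain ⟨h1, s, hs, h2, h3⟩ := (hW v hv).2
      obtain ⟨w, hwa, hwv, hw⟩ := exists_third (hG _ (hSG hs)) h1 h2 h3
      exact ⟨w, fun _ => ⟨hwa, hwv, hw ▸ hs⟩⟩
    · exact ⟨a, fun h => absurd h hv⟩
  choose f hf using hf
  choose g hg using hg
  have hWa : ∀ v ∈ W, v ≠ a := fun v hv => (hW v hv).1.1.symm
  have hWb : ∀ v ∈ W, v ≠ b := fun v hv => (hW v hv).2.1.symm
  -- uniqueness of the third vertex
  have uniq : ∀ x y z w : V, x ≠ y → z ≠ x → z ≠ y → ({x, y, z} : Finset V) ∈ S →
      ({x, y, w} : Finset V) ∈ S → z = w := by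
    intro x y z w hxy hzx hzy h1 h2
    have := hlin _ h1 _ h2 x y hxy (by simp) (by simp) (by simp) (by simp)
    have h3 : z ∈ ({x, y, w} : Finset V) := by rw [← this]; simp
    simp only [mem_insert, mem_singleton] at h3
    tauto
  set W' := W.erase c with hW'
  have hm : ∀ v ∈ W', v ∈ W ∧ v ≠ c := fun v hv => ⟨mem_of_mem_erase hv, (mem_erase.1 hv).1⟩
  have f_ne_b : ∀ v ∈ W', f v ≠ b := by
    intro v hv h
    obtain ⟨h1, h2⟩ := hm v hv
    have h3 := (hf v h1).2.2
    rw [h, swap23] at h3
    exact h2 (uniq a b c v hne hca hcb hs0 h3).symm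
  have g_ne_a : ∀ v ∈ W', g v ≠ a := by
    intro v hv h
    obtain ⟨h1, h2⟩ := hm v hv
    have h3 := (hg v h1).2.2
    rw [h, swap23, swap12] at h3
    exact h2 (uniq a b c v hne hca hcb hs0 h3).symm
  have f_ne_c : ∀ v ∈ W', f v ≠ c := by
    intro v hv h
    obtain ⟨h1, h2⟩ := hm v hv
    have h3 := (hf v h1).2.2
    rw [h, swap23] at h3
    have h4 := hs0
    rw [swap23] at h4
    exact hWb v h1 (uniq a c v b hca.symm (hWa v h1) h2 h3 h4)
  have g_ne_c : ∀ v ∈ W', g v ≠ c := by
    intro v hv h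
    obtain ⟨h1, h2⟩ := hm v hv
    have h3 := (hg v h1).2.2
    rw [h, swap23] at h3
    have h4 := hs0
    rw [swap12, swap23] at h4
    exact hWa v h1 (uniq b c v a hcb.symm (hWb v h1) h2 h3 h4)
  have f_ne_g : ∀ v ∈ W', f v ≠ g v := by
    intro v hv h
    obtain ⟨h1, h2⟩ := hm v hv
    have h3 := (hf v h1).2.2
    have h4 := (hg v h1).2.2
    rw [← h] at h4
    rw [← rot] at h3 h4
    have h5 : ({v, f v, a} : Finset V) ∈ S := by
      rwa [show ({v, f v, a} : Finset V) = {v, f v, a} from rfl]
    exact hne (uniq v (f v) a b (hf v h1).2.1.symm (hWa v h1).symm (hf v h1).1.symm h5 h4)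
  have f_inj : ∀ v ∈ W', ∀ w ∈ W', f v = f w → v = w := by
    intro v hv w hw h
    obtain ⟨h1, h2⟩ := hm v hv
    obtain ⟨h3, h4⟩ := hm w hw
    have h5 := (hf v h1).2.2
    have h6 := (hf w h3).2.2
    rw [← h, swap23] at h6
    rw [swap23] at h5
    exact uniq a (f v) v w (hf v h1).1.symm (hWa v h1) (hf v h1).2.1.symm h5 h6
  have g_inj : ∀ v ∈ W', ∀ w ∈ W', g v = g w → v = w := by
    intro v hv w hw h
    obtain ⟨h1, h2⟩ := hm v hv
    obtain ⟨h3, h4⟩ := hm w hw
    have h5 := (hg v h1).2.2
    have h6 := (hg w h3).2.2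
    rw [← h, swap23] at h6
    rw [swap23] at h5
    exact uniq b (g v) v w (hg v h1).1.symm (hWb v h1) (hg v h1).2.1.symm h5 h6
  obtain ⟨I, hIW, hIc, hind⟩ := exists_independent
    (fun v => {f v, g v} ∪ W'.filter (fun w => g w = f v)) 3 W'.card W' le_rfl
    (fun v hv => by
      have h1 := card_union_le ({f v, g v} : Finset V) (W'.filter (fun w => g w = f v))
      have h2 : ({f v, g v} : Finset V).card ≤ 2 := card_le_two
      have h3 : (W'.filter (fun w => g w = f v)).card ≤ 1 := by
        rw [card_le_one]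
        intro x hx y hy
        rw [mem_filter] at hx hy
        exact g_inj x hx.1 y hy.1 (hx.2.trans hy.2.symm)
      show (({f v, g v} : Finset V) ∪ W'.filter (fun w => g w = f v)).card ≤ 3
      omega)
  have hpages : IsPages G a b (univ \ {a, b, c}) I f g := by
    have mU : ∀ x : V, x ≠ a → x ≠ b → x ≠ c → x ∈ univ \ ({a, b, c} : Finset V) := by
      intro x h1 h2 h3
      simp [h1, h2, h3]
    have ind1 : ∀ v ∈ I, ∀ w ∈ I, v ≠ w → w ≠ f v ∧ w ≠ g v ∧ g w ≠ f v := by
      intro v hv w hw hvw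
      have := hind v hv w hw hvw
      simp only [mem_union, mem_insert, mem_singleton, mem_filter, not_or, not_and] at this
      exact ⟨this.1.1, this.1.2, this.2 (hIW hw)⟩
    constructor
    · intro v hv; exact hSG (hf v (hm v (hIW hv)).1).2.2
    · intro v hv; exact hSG (hg v (hm v (hIW hv)).1).2.2
    · intro v hv
      exact mU v (hWa v (hm v (hIW hv)).1) (hWb v (hm v (hIW hv)).1) (hm v (hIW hv)).2
    · intro v hv
      exact mU _ (hf v (hm v (hIW hv)).1).1 (f_ne_b v (hIW hv)) (f_ne_c v (hIW hv))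
    · intro v hv
      exact mU _ (g_ne_a v (hIW hv)) (hg v (hm v (hIW hv)).1).1 (g_ne_c v (hIW hv))
    · intro v hv w hw
      by_cases h : w = v
      · rw [h]; exact (hf v (hm v (hIW hv)).1).2.1.symm
      · exact (ind1 w hw v hv h).1
    · intro v hv w hw
      by_cases h : w = v
      · rw [h]; exact (hg v (hm v (hIW hv)).1).2.1.symm
      · exact (ind1 w hw v hv h).2.1
    · intro v hv w hw
      by_cases h : v = w
      · rw [← h]; exact f_ne_g v (hIW hv)
      · exact (ind1 v hv w hw h).2.2.symm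
    · intro v hv w hw h
      exact f_inj v (hIW hv) w (hIW hw) h
    · intro v hv w hw h
      exact g_inj v (hIW hv) w (hIW hw) h
  have hI : I.card < N := by
    by_contra h
    push Not at h
    obtain ⟨J, hJ, hJc⟩ := exists_subset_card_eq h
    exact hfree a b c (hSG hs0) _ (by simp) (by simp) (by simp) ⟨J, f, g, hJc, hpages.subset hJ⟩
  have h1 : W.card - 1 ≤ W'.card := pred_card_le_card_erase
  omega

/-- Triangle removal: a linear family of edges of a book-free graph is small. -/
theorem linear_bound {G : Finset (Finset V)} (hG : IsUniform 3 G) {N : ℕ}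
    (hfree : BookFree G N) {S : Finset (Finset V)} (hSG : S ⊆ G)
    (hlin : ∀ s ∈ S, ∀ t ∈ S, ∀ x y : V, x ≠ y → x ∈ s → y ∈ s → x ∈ t → y ∈ t → s = t)
    {ε : ℝ} (hS : ε * (Fintype.card V : ℝ) ^ 2 ≤ S.card) :
    SimpleGraph.triangleRemovalBound ε * (Fintype.card V : ℝ) ^ 3
      ≤ 7 * N * (Fintype.card V : ℝ) ^ 2 := by
  classical
  have htri : S ⊆ (shGraph S).cliqueFinset 3 := by
    intro s hs
    rw [SimpleGraph.mem_cliqueFinset_iff, SimpleGraph.isNClique_iff]
    refine ⟨?_, hG s (hSG hs)⟩
    intro x hx y hy hxy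
    exact ⟨hxy, s, hs, mem_coe.1 hx, mem_coe.1 hy⟩
  have hfar : (shGraph S).FarFromTriangleFree ε := by
    refine SimpleGraph.farFromTriangleFree_of_disjoint_triangles S htri ?_ ?_
    · intro s hs t ht hst x hx y hy
      by_contra hxy
      exact hst (hlin s (mem_coe.1 hs) t (mem_coe.1 ht) x y hxy hx.1 hy.1 hx.2 hy.2)
    · push_cast
      exact hS
  refine (hfar.le_card_cliqueFinset).trans ?_
  have hcov : (shGraph S).cliqueFinset 3 ⊆ (univ : Finset (V × V)).biUnion (fun p =>
      (univ.filter (fun c => (shGraph S).Adj p.1 p.2 ∧ (shGraph S).Adj p.1 c ∧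
        (shGraph S).Adj p.2 c)).image (fun c => ({p.1, p.2, c} : Finset V))) := by
    intro s hs
    rw [SimpleGraph.mem_cliqueFinset_iff, SimpleGraph.is3Clique_iff] at hs
    obtain ⟨x, y, z, hxy, hxz, hyz, rfl⟩ := hs
    rw [mem_biUnion]
    refine ⟨(x, y), mem_univ _, ?_⟩
    rw [mem_image]
    exact ⟨z, mem_filter.2 ⟨mem_univ _, hxy, hxz, hyz⟩, rfl⟩
  have h1 := card_le_card hcov
  have h2 : ((univ : Finset (V × V)).biUnion (fun p =>
      (univ.filter (fun c => (shGraph S).Adj p.1 p.2 ∧ (shGraph S).Adj p.1 c ∧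
        (shGraph S).Adj p.2 c)).image (fun c => ({p.1, p.2, c} : Finset V)))).card
      ≤ (univ : Finset (V × V)).card * (7 * N) := by
    refine card_biUnion_le_card_mul _ _ _ ?_
    intro p _
    refine card_image_le.trans ?_
    by_cases hp : (shGraph S).Adj p.1 p.2
    · refine card_common_le hG hfree hSG hlin hp _ ?_
      intro v hv
      rw [mem_filter] at hv
      exact hv.2.2
    · have : (univ.filter (fun c => (shGraph S).Adj p.1 p.2 ∧ (shGraph S).Adj p.1 c ∧
        (shGraph S).Adj p.2 c)) = ∅ := by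
        rw [filter_eq_empty_iff]
        intro c _ h
        exact hp h.1
      rw [this]
      simp
  have h3 : (univ : Finset (V × V)).card = Fintype.card V ^ 2 := by
    rw [card_univ, Fintype.card_prod, sq]
  rw [h3] at h2
  have h4 : (((shGraph S).cliqueFinset 3).card : ℝ) ≤ ((Fintype.card V ^ 2 * (7 * N) : ℕ) : ℝ) :=
    Nat.cast_le.2 (h1.trans h2)
  push_cast at h4
  linarith

/-- The weight of a pair in the counting argument. -/
def wt (G : Finset (Finset V)) (N : ℕ) (p : Finset V) : ℕ :=
  if cod G p ≤ N then 2 else if cod G p = N + 1 then 1 else 0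

omit [Fintype V] in
lemma wt_mul_cod_le (G : Finset (Finset V)) {N : ℕ} (hN : 1 ≤ N) (p : Finset V) :
    wt G N p * cod G p ≤ 2 * N := by
  unfold wt
  split_ifs with h1 h2
  · omega
  · omega
  · omega

lemma two_le_sum_wt {G : Finset (Finset V)} {N : ℕ} {e : Finset V}
    (he : e ∈ G) (hc : e ∉ core G N) : 2 ≤ ∑ p ∈ e.powersetCard 2, wt G N p := by
  classical
  by_cases h1 : ∀ p ∈ e.powersetCard 2, N + 1 ≤ cod G p
  · have h2 : 2 ≤ ((e.powersetCard 2).filter (fun p => cod G p = N + 1)).card := by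
      by_contra h
      push Not at h
      apply hc
      unfold core
      rw [mem_filter]
      exact ⟨he, h1, by omega⟩
    refine h2.trans ?_
    rw [card_filter]
    refine sum_le_sum (fun p hp => ?_)
    unfold wt
    split_ifs <;> omega
  · push Not at h1
    obtain ⟨p, hp, hlt⟩ := h1
    have h3 : wt G N p = 2 := by
      unfold wt
      rw [if_pos (by omega)]
    have h4 := single_le_sum (f := fun p => wt G N p) (fun _ _ => Nat.zero_le _) hp
    simp only [h3] at h4
    exact h4

/-- The weighted count: outside the core every pair pays at most `N`. -/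
theorem card_sdiff_core_le {G : Finset (Finset V)} {N : ℕ}
    (hN : 1 ≤ N) : (G \ core G N).card ≤ N * (Fintype.card V).choose 2 := by
  classical
  have h1 : (G \ core G N).card * 2 ≤ ∑ e ∈ G, ∑ p ∈ e.powersetCard 2, wt G N p := by
    calc (G \ core G N).card * 2 = ∑ e ∈ G \ core G N, 2 := by rw [sum_const, smul_eq_mul]
      _ ≤ ∑ e ∈ G \ core G N, ∑ p ∈ e.powersetCard 2, wt G N p := by
          refine sum_le_sum (fun e he => ?_)
          rw [mem_sdiff] at he
          exact two_le_sum_wt he.1 he.2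
      _ ≤ _ := sum_le_sum_of_subset sdiff_subset
  have h2 : ∑ e ∈ G, ∑ p ∈ e.powersetCard 2, wt G N p
      = ∑ p ∈ (univ : Finset V).powersetCard 2, wt G N p * cod G p := by
    rw [sum_comm' (s' := fun p => G.filter (fun e => p ⊆ e))
      (t' := (univ : Finset V).powersetCard 2)]
    · refine sum_congr rfl (fun p _ => ?_)
      rw [sum_const, smul_eq_mul, mul_comm]
      rfl
    · intro e p
      simp only [mem_powersetCard, mem_filter, subset_univ, true_and]
      tauto
  have h3 : ∑ p ∈ (univ : Finset V).powersetCard 2, wt G N p * cod G p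
      ≤ ∑ p ∈ (univ : Finset V).powersetCard 2, 2 * N :=
    sum_le_sum (fun p _ => wt_mul_cod_le G hN p)
  rw [sum_const, smul_eq_mul, card_powersetCard, card_univ] at h3
  rw [h2] at h1
  nlinarith

/-- The asymptotic upper bound for book-free graphs. -/
theorem upper_bound {N : ℕ} (hN : 1 ≤ N) {ε : ℝ} (hε : 0 < ε) :
    ∃ n0 : ℕ, ∀ (V : Type) [DecidableEq V] [Fintype V] (G : Finset (Finset V)),
      n0 ≤ Fintype.card V → IsUniform 3 G → BookFree G N →
      (G.card : ℝ) ≤ N * ((Fintype.card V).choose 2 : ℕ) + ε * (Fintype.card V : ℝ) ^ 2 := by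
  set C : ℕ := 3 * (2 * KK N) with hC
  have hCpos : 0 < C := by
    have h1 : 0 < 2 * N := by omega
    have h2 : 0 < 2 * (2 * N + 1) + 1 := by omega
    have : 0 < KK N := Nat.mul_pos h2 h1
    omega
  have hCr : (0 : ℝ) < C := by exact_mod_cast hCpos
  set δ : ℝ := ε / C with hδ
  have hδ0 : 0 < δ := div_pos hε hCr
  have hb := SimpleGraph.triangleRemovalBound_pos hδ0
  set bd := SimpleGraph.triangleRemovalBound δ with hbd
  refine ⟨⌈7 * N / bd⌉₊ + 1, ?_⟩
  intro V _ _ G hn hG hfree
  have hcore : ((core G N).card : ℝ) ≤ ε * (Fintype.card V : ℝ) ^ 2 := by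
    by_contra hcon
    push Not at hcon
    obtain ⟨S, hSF, hSc, hlin⟩ := exists_linear (F := core G N)
      (fun e he => hG e (core_subset G N he)) (C := 2 * KK N)
      (fun a b hab => cod_core_le hG hfree hab)
    have h1 : ((core G N).card : ℝ) ≤ C * S.card := by
      have : ((core G N).card : ℝ) ≤ ((3 * (2 * KK N) * S.card : ℕ) : ℝ) := Nat.cast_le.2 hSc
      rw [hC]
      push_cast at this ⊢
      exact this
    have h2 : δ * (Fintype.card V : ℝ) ^ 2 ≤ S.card := by
      rw [hδ, div_mul_eq_mul_div, div_le_iff₀ hCr]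
      nlinarith
    have h3 := linear_bound hG hfree (hSF.trans (core_subset G N)) hlin h2
    have hn' : (7 * N / bd : ℝ) < Fintype.card V := by
      have h4 : (7 * N / bd : ℝ) ≤ ⌈7 * N / bd⌉₊ := Nat.le_ceil _
      have h5 : ((⌈7 * N / bd⌉₊ + 1 : ℕ) : ℝ) ≤ Fintype.card V := Nat.cast_le.2 hn
      push_cast at h5
      linarith
    rw [div_lt_iff₀ hb] at hn'
    have hVpos : (0 : ℝ) < Fintype.card V := by
      have : 0 < Fintype.card V := by omega
      exact_mod_cast this
    have h6 : (0 : ℝ) < (Fintype.card V : ℝ) ^ 2 := by positivity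
    have h7 : bd * (Fintype.card V : ℝ) ^ 3 = (Fintype.card V * bd) * (Fintype.card V : ℝ) ^ 2 := by
      ring
    rw [h7] at h3
    have h8 := mul_lt_mul_of_pos_right hn' h6
    linarith
  have hrest := card_sdiff_core_le (G := G) hN
  have htot : G.card ≤ (G \ core G N).card + (core G N).card := by
    have := card_le_card (show G ⊆ (G \ core G N) ∪ core G N by
      intro e he
      by_cases h : e ∈ core G N
      · exact mem_union_right _ h
      · exact mem_union_left _ (mem_sdiff.2 ⟨he, h⟩))
    exact this.trans (card_union_le _ _)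
  have h9 : (G.card : ℝ) ≤ ((G \ core G N).card : ℝ) + (core G N).card := by exact_mod_cast htot
  have h10 : ((G \ core G N).card : ℝ) ≤ N * ((Fintype.card V).choose 2 : ℕ) := by
    exact_mod_cast hrest
  linarith

end MP_182bbb_co.H5
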