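import Pool.Agent.Lib.MP_182bbb_co.H5.Core

/-!
# The crosscut lower bound and the limit
-/

open Finset Filter Topology

namespace MP_182bbb_co.H5

variable {α V : Type*} [DecidableEq α] [DecidableEq V]

/-- all triples meeting `L` in exactly one vertex. -/
def star [Fintype V] (L : Finset V) : Finset (Finset V) :=
  univ.filter (fun e => e.card = 3 ∧ (e ∩ L).card = 1)

lemma star_uniform [Fintype V] (L : Finset V) : IsUniform 3 (star L) := by
  intro e he
  unfold star at he
  exact (mem_filter.1 he).2.1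

/-- The number of edges of `star L`. -/
lemma le_card_star [Fintype V] (L : Finset V) :
    L.card * (Lᶜ.card).choose 2 ≤ (star L).card := by
  rw [← card_powersetCard, ← card_product]
  refine card_le_card_of_injOn (fun q => insert q.1 q.2) ?_ ?_
  · rintro ⟨x, p⟩ hq
    rw [mem_coe, mem_product, mem_powersetCard] at hq
    obtain ⟨hx, hp, hpc⟩ := hq
    dsimp only at hx hp hpc ⊢
    have hxp : x ∉ p := fun h => (mem_compl.1 (hp h)) hx
    rw [mem_coe]
    unfold star
    rw [mem_filter]
    refine ⟨mem_univ _, ?_, ?_⟩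
    · rw [card_insert_of_notMem hxp, hpc]
    · have : insert x p ∩ L = {x} := by
        ext y
        rw [mem_inter, mem_insert, mem_singleton]
        constructor
        · rintro ⟨rfl | hy, hyL⟩
          · rfl
          · exact absurd hyL (mem_compl.1 (hp hy))
        · rintro rfl
          exact ⟨Or.inl rfl, hx⟩
      rw [this, card_singleton]
  · rintro ⟨x, p⟩ hq ⟨y, q⟩ hq' h
    rw [mem_coe, mem_product, mem_powersetCard] at hq hq'
    obtain ⟨hx, hp, hpc⟩ := hq
    obtain ⟨hy, hq, hqc⟩ := hq'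
    dsimp only at hx hp hpc hy hq hqc h
    have hxq : x ∉ q := fun h => (mem_compl.1 (hq h)) hx
    have hyp : y ∉ p := fun h => (mem_compl.1 (hp h)) hy
    have h1 : x = y := by
      have : x ∈ insert y q := by rw [← h]; exact mem_insert_self _ _
      rcases mem_insert.1 this with h | h
      · exact h
      · exact absurd h hxq
    subst h1
    have h2 : p = q := by
      rw [← erase_insert hyp, h, erase_insert hxq]
    rw [h2]

/-- `star L` contains no `(∂H)^+` when `|L| ≤ |H|`. -/
theorem IsBook.star_free [Fintype V] {H : Finset (Finset α)} {a b : α} (hH : IsBook H a b)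
    (hne : H.Nonempty) (L : Finset V) (hL : L.card ≤ H.card) :
    ¬ ContainsCopy (expansion 1 (shadow H)) (star L) := by
  classical
  intro hc
  obtain ⟨g, h, hg, hh, hgh, hG⟩ := exists_of_containsCopy hc
  have hab := hH.ne
  -- the special edges
  have hab_mem := hH.pair_mem_shadow hne
  have va : a ∈ verts (shadow H) := mem_verts.2 ⟨_, hab_mem, by simp⟩
  have vb : b ∈ verts (shadow H) := mem_verts.2 ⟨_, hab_mem, by simp⟩
  have one : ∀ s ∈ shadow H, (insert (h s) (s.image g) ∩ L).card = 1 := by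
    intro s hs
    have := hG s hs
    unfold star at this
    exact (mem_filter.1 this).2.2
  have hgab : g a ≠ g b := fun h' => hab (hg va vb h')
  -- not both `g a` and `g b` lie in `L`
  have hnot : ¬ (g a ∈ L ∧ g b ∈ L) := by
    rintro ⟨h1, h2⟩
    have h3 := one _ hab_mem
    rw [card_eq_one] at h3
    obtain ⟨x, hx⟩ := h3
    have ha : g a ∈ insert (h {a, b}) (({a, b} : Finset α).image g) ∩ L := by
      rw [mem_inter]; exact ⟨mem_insert_of_mem (mem_image_of_mem _ (by simp)), h1⟩
    have hb : g b ∈ insert (h {a, b}) (({a, b} : Finset α).image g) ∩ L := by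
      rw [mem_inter]; exact ⟨mem_insert_of_mem (mem_image_of_mem _ (by simp)), h2⟩
    rw [hx, mem_singleton] at ha hb
    exact hgab (ha.trans hb.symm)
  -- the vertices `v` of the pages
  have hth : ∀ e : Finset α, ∃ v, e ∈ H → (v ≠ a ∧ v ≠ b ∧ e = {a, b, v}) := by
    intro e
    by_cases he : e ∈ H
    · obtain ⟨v, hv⟩ := hH.third he
      exact ⟨v, fun _ => hv⟩
    · exact ⟨a, fun h => absurd h he⟩
  choose th hth using hth
  -- the choice of a vertex of `L` in each page
  have hpage : ∀ e : Finset α, ∃ x : V, e ∈ H → (x ∈ L ∧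
      (x = g (th e) ∨ x = h {a, th e} ∨ x = h {b, th e})) := by
    intro e
    by_cases he : e ∈ H
    · obtain ⟨h1, h2, h3⟩ := hth e he
      have heH : ({a, b, th e} : Finset α) ∈ H := h3 ▸ he
      by_cases hbL : g b ∈ L
      · have haL : g a ∉ L := fun h' => hnot ⟨h', hbL⟩
        have h4 := one _ (hH.left_mem_shadow h2 heH)
        obtain ⟨x, hx⟩ := card_eq_one.1 h4
        have hx' : x ∈ insert (h {a, th e}) (({a, th e} : Finset α).image g) ∩ L := by
          rw [hx]; exact mem_singleton_self x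
        rw [mem_inter, mem_insert, image_insert, image_singleton, mem_insert, mem_singleton] at hx'
        obtain ⟨hx1, hx2⟩ := hx'
        refine ⟨x, fun _ => ⟨hx2, ?_⟩⟩
        rcases hx1 with hx1 | hx1 | hx1
        · exact Or.inr (Or.inl hx1)
        · exact absurd (hx1 ▸ hx2) haL
        · exact Or.inl hx1
      · have h4 := one _ (hH.right_mem_shadow h1 heH)
        obtain ⟨x, hx⟩ := card_eq_one.1 h4
        have hx' : x ∈ insert (h {b, th e}) (({b, th e} : Finset α).image g) ∩ L := by
          rw [hx]; exact mem_singleton_self x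
        rw [mem_inter, mem_insert, image_insert, image_singleton, mem_insert, mem_singleton] at hx'
        obtain ⟨hx1, hx2⟩ := hx'
        refine ⟨x, fun _ => ⟨hx2, ?_⟩⟩
        rcases hx1 with hx1 | hx1 | hx1
        · exact Or.inr (Or.inr hx1)
        · exact absurd (hx1 ▸ hx2) hbL
        · exact Or.inl hx1
    · exact ⟨g a, fun h => absurd h he⟩
  choose pg hpg using hpage
  -- a vertex of `L` on the spine edge
  obtain ⟨x0, hx0⟩ := card_eq_one.1 (one _ hab_mem)
  have hx0' : x0 ∈ insert (h {a, b}) (({a, b} : Finset α).image g) ∩ L := by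
    rw [hx0]; exact mem_singleton_self x0
  rw [mem_inter, mem_insert, image_insert, image_singleton, mem_insert, mem_singleton] at hx0'
  obtain ⟨hx1, hx2⟩ := hx0'
  -- facts on the page vertices
  have vt : ∀ e ∈ H, th e ∈ verts (shadow H) := by
    intro e he
    obtain ⟨h1, h2, h3⟩ := hth e he
    exact mem_verts.2 ⟨_, hH.left_mem_shadow h2 (h3 ▸ he), by simp⟩
  have sl : ∀ e ∈ H, ({a, th e} : Finset α) ∈ shadow H := by
    intro e he
    obtain ⟨h1, h2, h3⟩ := hth e he
    exact hH.left_mem_shadow h2 (h3 ▸ he)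
  have sr : ∀ e ∈ H, ({b, th e} : Finset α) ∈ shadow H := by
    intro e he
    obtain ⟨h1, h2, h3⟩ := hth e he
    exact hH.right_mem_shadow h1 (h3 ▸ he)
  have pair_ne : ∀ (c d v w : α), v ≠ c → v ≠ d → w ≠ c → w ≠ d → ({c, v} : Finset α) = {d, w} →
      v = w := by
    intro c d v w h1 h2 h3 h4 h5
    have : v ∈ ({d, w} : Finset α) := by rw [← h5]; simp
    simp only [mem_insert, mem_singleton] at this
    tauto
  have pair_ne' : ∀ (v w : α), v ≠ a → v ≠ b → w ≠ a → w ≠ b → ({a, v} : Finset α) ≠ {b, w} := by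
    intro v w h1 h2 h3 h4 h5
    have : a ∈ ({b, w} : Finset α) := by rw [← h5]; simp
    simp only [mem_insert, mem_singleton] at this
    rcases this with h | h
    · exact hab h
    · exact h3 h.symm
  have th_inj : ∀ e ∈ H, ∀ e' ∈ H, th e = th e' → e = e' := by
    intro e he e' he' h
    rw [(hth e he).2.2, (hth e' he').2.2, h]
  have hinj : ∀ e ∈ H, ∀ e' ∈ H, pg e = pg e' → e = e' := by
    intro e he e' he' hee
    obtain ⟨h1, h2, h3⟩ := hth e he
    obtain ⟨h1', h2', h3'⟩ := hth e' he'
    obtain ⟨_, hp⟩ := hpg e he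
    obtain ⟨_, hp'⟩ := hpg e' he'
    apply th_inj e he e' he'
    rcases hp with hp | hp | hp <;> rcases hp' with hp' | hp' | hp'
    · exact hg (vt e he) (vt e' he') (by rw [← hp, hee, hp'])
    · exact absurd (by rw [← hp, hee, hp']) (hgh (th e) (vt e he) _ (sl e' he'))
    · exact absurd (by rw [← hp, hee, hp']) (hgh (th e) (vt e he) _ (sr e' he'))
    · exact absurd (by rw [← hp', ← hee, hp]) (hgh (th e') (vt e' he') _ (sl e he))
    · have := hh (sl e he) (sl e' he') (by rw [← hp, hee, hp'])
      exact pair_ne a a _ _ h1 h1 h1' h1' this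
    · have := hh (sl e he) (sr e' he') (by rw [← hp, hee, hp'])
      exact absurd this (pair_ne' _ _ h1 h2 h1' h2')
    · exact absurd (by rw [← hp', ← hee, hp]) (hgh (th e') (vt e' he') _ (sr e he))
    · have := hh (sl e' he') (sr e he) (by rw [← hp', ← hee, hp])
      exact absurd this (pair_ne' _ _ h1' h2' h1 h2)
    · have := hh (sr e he) (sr e' he') (by rw [← hp, hee, hp'])
      exact pair_ne b b _ _ h2 h2 h2' h2' this
  have hx0pg : ∀ e ∈ H, pg e ≠ x0 := by
    intro e he hee
    obtain ⟨h1, h2, h3⟩ := hth e he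
    obtain ⟨_, hp⟩ := hpg e he
    rcases hx1 with hx1 | hx1 | hx1 <;> rcases hp with hp | hp | hp
    · exact absurd (by rw [← hp, hee, hx1]) (hgh (th e) (vt e he) _ hab_mem)
    · have := hh (sl e he) hab_mem (by rw [← hp, hee, hx1])
      have h4 : b ∈ ({a, th e} : Finset α) := by rw [this]; simp
      simp only [mem_insert, mem_singleton] at h4
      rcases h4 with h4 | h4
      · exact hab h4.symm
      · exact h2 h4.symm
    · have := hh (sr e he) hab_mem (by rw [← hp, hee, hx1])
      have h4 : a ∈ ({b, th e} : Finset α) := by rw [this]; simp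
      simp only [mem_insert, mem_singleton] at h4
      rcases h4 with h4 | h4
      · exact hab h4
      · exact h1 h4.symm
    · exact h1 (hg (vt e he) va (by rw [← hp, hee, hx1]))
    · exact absurd (by rw [← hx1, ← hee, hp]) (hgh a va _ (sl e he))
    · exact absurd (by rw [← hx1, ← hee, hp]) (hgh a va _ (sr e he))
    · exact h2 (hg (vt e he) vb (by rw [← hp, hee, hx1]))
    · exact absurd (by rw [← hx1, ← hee, hp]) (hgh b vb _ (sl e he))
    · exact absurd (by rw [← hx1, ← hee, hp]) (hgh b vb _ (sr e he))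
  have hsub : insert x0 (H.image pg) ⊆ L := by
    intro y hy
    rcases mem_insert.1 hy with rfl | hy
    · exact hx2
    · obtain ⟨e, he, rfl⟩ := mem_image.1 hy
      exact (hpg e he).1
  have hcard : (insert x0 (H.image pg)).card = H.card + 1 := by
    rw [card_insert_of_notMem, card_image_of_injOn]
    · intro e he e' he' h
      exact hinj e he e' he' h
    · intro hy
      obtain ⟨e, he, h⟩ := mem_image.1 hy
      exact hx0pg e he h
  have := card_le_card hsub
  omega

lemma choose_two_le (m N : ℕ) : (m + N).choose 2 ≤ m.choose 2 + N * (m + N) := by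
  induction N with
  | zero => simp
  | succ N ih =>
    have h1 : (m + (N + 1)).choose 2 = (m + N).choose 1 + (m + N).choose 2 := by
      rw [← add_assoc]
      exact Nat.choose_succ_succ' (m + N) 1
    rw [h1, Nat.choose_one_right]
    nlinarith

/-- The lower bound for the Turán number. -/
theorem IsBook.le_ex {H : Finset (Finset α)} {a b : α} (hH : IsBook H a b)
    (hne : H.Nonempty) {n : ℕ} (hn : H.card ≤ n) :
    H.card * (n - H.card).choose 2 ≤ ex 3 n (expansion 1 (shadow H)) := by
  obtain ⟨L, _, hLc⟩ := exists_subset_card_eq (s := (univ : Finset (Fin n))) (n := H.card)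
    (by rw [card_univ, Fintype.card_fin]; exact hn)
  have h1 := le_card_star L
  rw [card_compl, Fintype.card_fin, hLc] at h1
  exact h1.trans (MP_182bbb_co.H5.le_ex (star L) (star_uniform L)
    (hH.star_free hne L hLc.le))

/-- The main theorem. -/
theorem IsBook.tendsto {H : Finset (Finset α)} {a b : α} (hH : IsBook H a b)
    (hne : H.Nonempty) :
    Tendsto (fun n : ℕ => (ex 3 n (expansion 1 (shadow H)) : ℝ) / (n.choose 2 : ℝ)) atTop
      (𝓝 (H.card : ℝ)) := by
  set N := H.card with hN
  have hN1 : 1 ≤ N := hne.card_pos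
  rw [Metric.tendsto_atTop]
  intro ε hε
  obtain ⟨n0, hn0⟩ := upper_bound hN1 (ε := ε / 8) (by positivity)
  refine ⟨max n0 (max (N + 2) (⌈8 * N ^ 2 / ε⌉₊ + 1)), ?_⟩
  intro n hn
  have hn1 : n0 ≤ n := (le_max_left _ _).trans hn
  have hn2 : N + 2 ≤ n := (le_max_left _ _).trans ((le_max_right _ _).trans hn)
  have hn3 : ⌈8 * N ^ 2 / ε⌉₊ + 1 ≤ n := (le_max_right _ _).trans ((le_max_right _ _).trans hn)
  -- `n ^ 2 ≤ 4 C(n,2)`
  have hC : (n : ℝ) ^ 2 ≤ 4 * (n.choose 2 : ℝ) := by
    rw [Nat.cast_choose_two]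
    have : (2 : ℝ) ≤ n := by
      have : 2 ≤ n := by omega
      exact_mod_cast this
    nlinarith
  have hnpos : (0 : ℝ) < n := by
    have : 0 < n := by omega
    exact_mod_cast this
  have hCpos : (0 : ℝ) < (n.choose 2 : ℝ) := by nlinarith
  -- upper bound
  have hup : (ex 3 n (expansion 1 (shadow H)) : ℝ) ≤ N * (n.choose 2 : ℝ) + ε / 8 * (n : ℝ) ^ 2 := by
    have hfl : ex 3 n (expansion 1 (shadow H)) ≤
        ⌊(N * (n.choose 2 : ℝ) + ε / 8 * (n : ℝ) ^ 2)⌋₊ := by
      refine ex_le ?_
      intro G hG hfree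
      have h1 := hn0 (Fin n) G (by rw [Fintype.card_fin]; exact hn1) hG (hH.bookFree hG hfree)
      rw [Fintype.card_fin] at h1
      exact Nat.le_floor h1
    refine (Nat.cast_le.2 hfl).trans (Nat.floor_le ?_)
    positivity
  -- lower bound
  have hlow : N * (n.choose 2 : ℝ) - ε / 8 * (n : ℝ) ^ 2 ≤ (ex 3 n (expansion 1 (shadow H)) : ℝ) := by
    have h1 := hH.le_ex hne (n := n) (by omega)
    rw [← hN] at h1
    have h2 := choose_two_le (n - N) N
    rw [Nat.sub_add_cancel (by omega : N ≤ n)] at h2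
    have h3 : (N * (n - N).choose 2 : ℝ) ≤ (ex 3 n (expansion 1 (shadow H)) : ℝ) := by
      exact_mod_cast h1
    have h4 : (n.choose 2 : ℝ) ≤ ((n - N).choose 2 : ℝ) + N * n := by exact_mod_cast h2
    have h5 : (N : ℝ) * (n.choose 2 : ℝ) ≤ N * ((n - N).choose 2 : ℝ) + N ^ 2 * n := by
      have hN0 : (0 : ℝ) ≤ N := Nat.cast_nonneg _
      nlinarith
    have h6 : (N : ℝ) ^ 2 * n ≤ ε / 8 * (n : ℝ) ^ 2 := by
      have h7 : (8 * N ^ 2 / ε : ℝ) ≤ n := by
        have h8 : (8 * N ^ 2 / ε : ℝ) ≤ ⌈8 * N ^ 2 / ε⌉₊ := Nat.le_ceil _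
        have h9 : ((⌈8 * N ^ 2 / ε⌉₊ + 1 : ℕ) : ℝ) ≤ n := Nat.cast_le.2 hn3
        push_cast at h9
        linarith
      rw [div_le_iff₀ hε] at h7
      nlinarith
    linarith
  rw [Real.dist_eq, abs_lt]
  constructor
  · rw [lt_sub_iff_add_lt, lt_div_iff₀ hCpos]
    nlinarith
  · rw [sub_lt_iff_lt_add, div_lt_iff₀ hCpos]
    nlinarith

end MP_182bbb_co.H5
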