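import Pool.Agent.Lib.MP_182bbb_co.H5.Basic

/-!
# Page systems

A page (for the spine `a, b`) is a triple `(v, p, q)` with `{a, v, p}` and `{b, v, q}` edges of `G`.
-/

open Finset

namespace MP_182bbb_co.H5

variable {V : Type*} [DecidableEq V]

/-- A system of pairwise disjoint pages `(v, f v, g v)`, `v ∈ I`, with all vertices in `U`. -/
structure IsPages (G : Finset (Finset V)) (a b : V) (U I : Finset V) (f g : V → V) : Prop where
  memA : ∀ v ∈ I, ({a, v, f v} : Finset V) ∈ G
  memB : ∀ v ∈ I, ({b, v, g v} : Finset V) ∈ G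
  subI : ∀ v ∈ I, v ∈ U
  subf : ∀ v ∈ I, f v ∈ U
  subg : ∀ v ∈ I, g v ∈ U
  nf : ∀ v ∈ I, ∀ w ∈ I, v ≠ f w
  ng : ∀ v ∈ I, ∀ w ∈ I, v ≠ g w
  nfg : ∀ v ∈ I, ∀ w ∈ I, f v ≠ g w
  injf : ∀ v ∈ I, ∀ w ∈ I, f v = f w → v = w
  injg : ∀ v ∈ I, ∀ w ∈ I, g v = g w → v = w

lemma IsPages.mono {G : Finset (Finset V)} {a b : V} {U U' I : Finset V} {f g : V → V}
    (h : IsPages G a b U I f g) (hU : U ⊆ U') : IsPages G a b U' I f g :=
  ⟨h.memA, h.memB, fun v hv => hU (h.subI v hv), fun v hv => hU (h.subf v hv),
    fun v hv => hU (h.subg v hv), h.nf, h.ng, h.nfg, h.injf, h.injg⟩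

lemma IsPages.subset {G : Finset (Finset V)} {a b : V} {U I I' : Finset V} {f g : V → V}
    (h : IsPages G a b U I f g) (hI : I' ⊆ I) : IsPages G a b U I' f g :=
  ⟨fun v hv => h.memA v (hI hv), fun v hv => h.memB v (hI hv), fun v hv => h.subI v (hI hv),
    fun v hv => h.subf v (hI hv), fun v hv => h.subg v (hI hv),
    fun v hv w hw => h.nf v (hI hv) w (hI hw), fun v hv w hw => h.ng v (hI hv) w (hI hw),
    fun v hv w hw => h.nfg v (hI hv) w (hI hw), fun v hv w hw => h.injf v (hI hv) w (hI hw),
    fun v hv w hw => h.injg v (hI hv) w (hI hw)⟩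

/-- there are `k` disjoint pages inside `U`. -/
def HasPages (G : Finset (Finset V)) (a b : V) (U : Finset V) (k : ℕ) : Prop :=
  ∃ (I : Finset V) (f g : V → V), I.card = k ∧ IsPages G a b U I f g

lemma HasPages.mono {G : Finset (Finset V)} {a b : V} {U U' : Finset V} {k : ℕ}
    (h : HasPages G a b U k) (hU : U ⊆ U') : HasPages G a b U' k := by
  obtain ⟨I, f, g, hI, hp⟩ := h
  exact ⟨I, f, g, hI, hp.mono hU⟩

lemma HasPages.cons {G : Finset (Finset V)} {a b : V} {U : Finset V} {k : ℕ} {v p q : V}
    (h : HasPages G a b (U \ {v, p, q}) k) (hv : v ∈ U) (hp : p ∈ U) (hq : q ∈ U)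
    (hvp : v ≠ p) (hvq : v ≠ q) (hpq : p ≠ q) (hA : ({a, v, p} : Finset V) ∈ G)
    (hB : ({b, v, q} : Finset V) ∈ G) : HasPages G a b U (k + 1) := by
  obtain ⟨I, f, g, hI, hP⟩ := h
  have hvI : ∀ w ∈ I, w ≠ v ∧ w ≠ p ∧ w ≠ q := by
    intro w hw
    have := hP.subI w hw
    simp only [mem_sdiff, mem_insert, mem_singleton, not_or] at this
    exact this.2
  have hfI : ∀ w ∈ I, f w ≠ v ∧ f w ≠ p ∧ f w ≠ q := by
    intro w hw
    have := hP.subf w hw
    simp only [mem_sdiff, mem_insert, mem_singleton, not_or] at this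
    exact this.2
  have hgI : ∀ w ∈ I, g w ≠ v ∧ g w ≠ p ∧ g w ≠ q := by
    intro w hw
    have := hP.subg w hw
    simp only [mem_sdiff, mem_insert, mem_singleton, not_or] at this
    exact this.2
  have hv' : v ∉ I := fun h => (hvI v h).1 rfl
  refine ⟨insert v I, Function.update f v p, Function.update g v q, ?_, ?_⟩
  · rw [card_insert_of_notMem hv', hI]
  · have uf : ∀ w ∈ I, Function.update f v p w = f w := fun w hw =>
      Function.update_of_ne (hvI w hw).1 _ _
    have ug : ∀ w ∈ I, Function.update g v q w = g w := fun w hw =>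
      Function.update_of_ne (hvI w hw).1 _ _
    have uf' : Function.update f v p v = p := Function.update_self _ _ _
    have ug' : Function.update g v q v = q := Function.update_self _ _ _
    have sub : ∀ x, x ∈ U \ {v, p, q} → x ∈ U := fun x hx => (mem_sdiff.1 hx).1
    constructor
    · intro w hw
      rcases mem_insert.1 hw with rfl | hw
      · rw [uf']; exact hA
      · rw [uf w hw]; exact hP.memA w hw
    · intro w hw
      rcases mem_insert.1 hw with rfl | hw
      · rw [ug']; exact hB
      · rw [ug w hw]; exact hP.memB w hw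
    · intro w hw
      rcases mem_insert.1 hw with rfl | hw
      · exact hv
      · exact sub _ (hP.subI w hw)
    · intro w hw
      rcases mem_insert.1 hw with rfl | hw
      · rw [uf']; exact hp
      · rw [uf w hw]; exact sub _ (hP.subf w hw)
    · intro w hw
      rcases mem_insert.1 hw with rfl | hw
      · rw [ug']; exact hq
      · rw [ug w hw]; exact sub _ (hP.subg w hw)
    · intro x hx w hw
      rcases mem_insert.1 hw with hwv | hw
      · rw [hwv, uf']
        rcases mem_insert.1 hx with hxv | hx
        · rw [hxv]; exact hvp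
        · exact (hvI x hx).2.1
      · rw [uf w hw]
        rcases mem_insert.1 hx with hxv | hx
        · rw [hxv]; exact (hfI w hw).1.symm
        · exact hP.nf x hx w hw
    · intro x hx w hw
      rcases mem_insert.1 hw with hwv | hw
      · rw [hwv, ug']
        rcases mem_insert.1 hx with hxv | hx
        · rw [hxv]; exact hvq
        · exact (hvI x hx).2.2
      · rw [ug w hw]
        rcases mem_insert.1 hx with hxv | hx
        · rw [hxv]; exact (hgI w hw).1.symm
        · exact hP.ng x hx w hw
    · intro x hx w hw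
      rcases mem_insert.1 hw with hwv | hw
      · rw [hwv, ug']
        rcases mem_insert.1 hx with hxv | hx
        · rw [hxv, uf']; exact hpq
        · rw [uf x hx]; exact (hfI x hx).2.2
      · rw [ug w hw]
        rcases mem_insert.1 hx with hxv | hx
        · rw [hxv, uf']; exact (hgI w hw).2.1.symm
        · rw [uf x hx]; exact hP.nfg x hx w hw
    · intro x hx w hw
      rcases mem_insert.1 hw with hwv | hw
      · rw [hwv, uf']
        rcases mem_insert.1 hx with hxv | hx
        · intro _; exact hxv
        · rw [uf x hx]; intro h; exact absurd h (hfI x hx).2.1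
      · rw [uf w hw]
        rcases mem_insert.1 hx with hxv | hx
        · rw [hxv, uf']; intro h; exact absurd h.symm (hfI w hw).2.1
        · rw [uf x hx]; exact hP.injf x hx w hw
    · intro x hx w hw
      rcases mem_insert.1 hw with hwv | hw
      · rw [hwv, ug']
        rcases mem_insert.1 hx with hxv | hx
        · intro _; exact hxv
        · rw [ug x hx]; intro h; exact absurd h (hgI x hx).2.2
      · rw [ug w hw]
        rcases mem_insert.1 hx with hxv | hx
        · rw [hxv, ug']; intro h; exact absurd h.symm (hgI w hw).2.2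
        · rw [ug x hx]; exact hP.injg x hx w hw

/-- The key lemma: no sunflowers are needed. -/
theorem hasPages_of_lists {G : Finset (Finset V)} {a b : V} :
    ∀ (k : ℕ) (U Z : Finset V) (A B : V → Finset V), 2 * k ≤ Z.card → Z ⊆ U →
      (∀ z ∈ Z, A z ⊆ U) → (∀ z ∈ Z, B z ⊆ U) →
      (∀ z ∈ Z, k + 1 ≤ (A z).card) → (∀ z ∈ Z, k ≤ (B z).card) →
      (∀ z ∈ Z, ∀ w ∈ Z, w ∉ A z) → (∀ z ∈ Z, ∀ w ∈ Z, w ∉ B z) →
      (∀ z ∈ Z, ∀ y ∈ A z, ({a, z, y} : Finset V) ∈ G) →
      (∀ z ∈ Z, ∀ y ∈ B z, ({b, z, y} : Finset V) ∈ G) → HasPages G a b U k := by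
  intro k
  induction k with
  | zero =>
    intro U Z A B _ _ _ _ _ _ _ _ _ _
    exact ⟨∅, id, id, rfl, by constructor <;> simp⟩
  | succ k ih =>
    intro U Z A B hZ hZU hAU hBU hA hB hAZ hBZ hAG hBG
    by_cases hc : ∃ z ∈ Z, ∃ w ∈ Z, z ≠ w ∧ ∃ c ∈ A z, c ∈ B w
    · obtain ⟨z, hz, w, hw, hzw, c, hcA, hcB⟩ := hc
      have hcz : c ≠ z := fun h => hAZ z hz z hz (h ▸ hcA)
      have hcw : c ≠ w := fun h => hAZ z hz w hw (h ▸ hcA)
      have h1 : ({a, c, z} : Finset V) ∈ G := by
        have := hAG z hz c hcA
        rwa [show ({a, c, z} : Finset V) = {a, z, c} by ext x; simp; tauto]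
      have h2 : ({b, c, w} : Finset V) ∈ G := by
        have := hBG w hw c hcB
        rwa [show ({b, c, w} : Finset V) = {b, w, c} by ext x; simp; tauto]
      refine HasPages.cons (v := c) (p := z) (q := w) ?_ (hAU z hz hcA) (hZU hz) (hZU hw)
        hcz hcw hzw h1 h2
      refine ih (U \ {c, z, w}) (Z \ {z, w}) (fun x => (A x).erase c) (fun x => (B x).erase c)
        ?_ ?_ ?_ ?_ ?_ ?_ ?_ ?_ ?_ ?_
      · have : (Z \ {z, w}).card = Z.card - 2 := by
          rw [card_sdiff_of_subset, card_pair hzw]
          intro x hx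
          simp only [mem_insert, mem_singleton] at hx
          rcases hx with rfl | rfl <;> assumption
        omega
      · intro x hx
        simp only [mem_sdiff, mem_insert, mem_singleton, not_or] at hx ⊢
        refine ⟨hZU hx.1, ?_, hx.2.1, hx.2.2⟩
        intro h
        exact hAZ z hz x hx.1 (h ▸ hcA)
      · intro x hx y hy
        simp only [mem_sdiff, mem_insert, mem_singleton, not_or] at hx ⊢
        rw [mem_erase] at hy
        exact ⟨hAU x hx.1 hy.2, hy.1, fun h => hAZ x hx.1 z hz (h ▸ hy.2),
          fun h => hAZ x hx.1 w hw (h ▸ hy.2)⟩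
      · intro x hx y hy
        simp only [mem_sdiff, mem_insert, mem_singleton, not_or] at hx ⊢
        rw [mem_erase] at hy
        exact ⟨hBU x hx.1 hy.2, hy.1, fun h => hBZ x hx.1 z hz (h ▸ hy.2),
          fun h => hBZ x hx.1 w hw (h ▸ hy.2)⟩
      · intro x hx
        have := hA x (mem_sdiff.1 hx).1
        have := pred_card_le_card_erase (s := A x) (a := c)
        omega
      · intro x hx
        have := hB x (mem_sdiff.1 hx).1
        have := pred_card_le_card_erase (s := B x) (a := c)
        omega
      · intro x hx y hy hxy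
        exact hAZ x (mem_sdiff.1 hx).1 y (mem_sdiff.1 hy).1 (mem_of_mem_erase hxy)
      · intro x hx y hy hxy
        exact hBZ x (mem_sdiff.1 hx).1 y (mem_sdiff.1 hy).1 (mem_of_mem_erase hxy)
      · intro x hx y hy
        exact hAG x (mem_sdiff.1 hx).1 y (mem_of_mem_erase hy)
      · intro x hx y hy
        exact hBG x (mem_sdiff.1 hx).1 y (mem_of_mem_erase hy)
    · push Not at hc
      have hZne : Z.Nonempty := by
        rw [← card_pos]; omega
      obtain ⟨z, hz⟩ := hZne
      have hBne : (B z).Nonempty := by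
        rw [← card_pos]; have := hB z hz; omega
      obtain ⟨q, hq⟩ := hBne
      have hAne : ((A z).erase q).Nonempty := by
        rw [← card_pos]
        have := hA z hz
        have := pred_card_le_card_erase (s := A z) (a := q)
        omega
      obtain ⟨p, hp⟩ := hAne
      rw [mem_erase] at hp
      have hzp : z ≠ p := fun h => hAZ z hz z hz (by rw [h]; exact h ▸ hp.2)
      have hzq : z ≠ q := fun h => hBZ z hz z hz (by rw [h]; exact h ▸ hq)
      refine HasPages.cons (v := z) (p := p) (q := q) ?_ (hZU hz) (hAU z hz hp.2) (hBU z hz hq)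
        hzp hzq hp.1 (hAG z hz p hp.2) (hBG z hz q hq)
      have hqA : ∀ x ∈ Z, x ≠ z → q ∉ A x := by
        intro x hx hxz hqx
        exact hc x hx z hz hxz q hqx hq
      have hpB : ∀ x ∈ Z, x ≠ z → p ∉ B x := by
        intro x hx hxz hpx
        exact hc z hz x hx (Ne.symm hxz) p hp.2 hpx
      refine ih (U \ {z, p, q}) (Z.erase z) (fun x => (A x).erase p) (fun x => (B x).erase q)
        ?_ ?_ ?_ ?_ ?_ ?_ ?_ ?_ ?_ ?_
      · rw [card_erase_of_mem hz]; omega
      · intro x hx
        rw [mem_erase] at hx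
        simp only [mem_sdiff, mem_insert, mem_singleton, not_or]
        exact ⟨hZU hx.2, hx.1, fun h => hAZ z hz x hx.2 (h ▸ hp.2),
          fun h => hBZ z hz x hx.2 (h ▸ hq)⟩
      · intro x hx y hy
        rw [mem_erase] at hx hy
        simp only [mem_sdiff, mem_insert, mem_singleton, not_or]
        exact ⟨hAU x hx.2 hy.2, fun h => hAZ x hx.2 z hz (h ▸ hy.2), hy.1,
          fun h => hqA x hx.2 hx.1 (h ▸ hy.2)⟩
      · intro x hx y hy
        rw [mem_erase] at hx hy
        simp only [mem_sdiff, mem_insert, mem_singleton, not_or]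
        exact ⟨hBU x hx.2 hy.2, fun h => hBZ x hx.2 z hz (h ▸ hy.2),
          fun h => hpB x hx.2 hx.1 (h ▸ hy.2), hy.1⟩
      · intro x hx
        have := hA x (mem_of_mem_erase hx)
        have := pred_card_le_card_erase (s := A x) (a := p)
        omega
      · intro x hx
        have := hB x (mem_of_mem_erase hx)
        have := pred_card_le_card_erase (s := B x) (a := q)
        omega
      · intro x hx y hy hxy
        exact hAZ x (mem_of_mem_erase hx) y (mem_of_mem_erase hy) (mem_of_mem_erase hxy)
      · intro x hx y hy hxy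
        exact hBZ x (mem_of_mem_erase hx) y (mem_of_mem_erase hy) (mem_of_mem_erase hxy)
      · intro x hx y hy
        exact hAG x (mem_of_mem_erase hx) y (mem_of_mem_erase hy)
      · intro x hx y hy
        exact hBG x (mem_of_mem_erase hx) y (mem_of_mem_erase hy)

/-- A digraph with out-degrees at most `d` has an independent set containing at least a
`1/(2d+1)` proportion of the vertices. -/
theorem exists_independent (O : V → Finset V) (d : ℕ) :
    ∀ (m : ℕ) (W : Finset V), W.card ≤ m → (∀ x ∈ W, (O x).card ≤ d) →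
      ∃ I ⊆ W, W.card ≤ (2 * d + 1) * I.card ∧ ∀ x ∈ I, ∀ y ∈ I, x ≠ y → y ∉ O x := by
  intro m
  induction m with
  | zero =>
    intro W hW _
    refine ⟨∅, empty_subset _, by simpa using hW, by simp⟩
  | succ m ih =>
    intro W hW hO
    rcases W.eq_empty_or_nonempty with rfl | hne
    · exact ⟨∅, empty_subset _, by simp, by simp⟩
    -- a vertex of in-degree at most `d`
    obtain ⟨x, hx, hxd⟩ : ∃ x ∈ W, (W.filter (fun y => x ∈ O y)).card ≤ d := by
      by_contra hcon
      push Not at hcon
      have h1 : ∑ x ∈ W, (W.filter (fun y => x ∈ O y)).card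
          = ∑ y ∈ W, (W.filter (fun x => x ∈ O y)).card := by
        simp only [card_filter]
        rw [sum_comm]
      have h2 : ∑ y ∈ W, (W.filter (fun x => x ∈ O y)).card ≤ ∑ y ∈ W, d := by
        refine sum_le_sum (fun y hy => ?_)
        refine le_trans (card_le_card ?_) (hO y hy)
        intro x hx
        exact (mem_filter.1 hx).2
      have h3 : ∑ x ∈ W, d < ∑ x ∈ W, (W.filter (fun y => x ∈ O y)).card :=
        sum_lt_sum_of_nonempty hne (fun x hx => hcon x hx)
      omega
    set R : Finset V := insert x (O x ∪ W.filter (fun y => x ∈ O y)) with hR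
    have hRc : R.card ≤ 2 * d + 1 := by
      have h1 := card_insert_le x (O x ∪ W.filter (fun y => x ∈ O y))
      have h2 := card_union_le (O x) (W.filter (fun y => x ∈ O y))
      have h3 := hO x hx
      rw [hR]
      omega
    have hxR : x ∈ R := mem_insert_self _ _
    have hlt : (W \ R).card < W.card := by
      refine card_lt_card ?_
      refine ⟨sdiff_subset, fun h => ?_⟩
      exact (mem_sdiff.1 (h hx)).2 hxR
    obtain ⟨I, hI, hIc, hind⟩ := ih (W \ R) (by omega) (fun y hy => hO y (mem_sdiff.1 hy).1)
    have hxI : x ∉ I := fun h => (mem_sdiff.1 (hI h)).2 hxR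
    refine ⟨insert x I, ?_, ?_, ?_⟩
    · intro y hy
      rcases mem_insert.1 hy with rfl | hy
      · exact hx
      · exact (mem_sdiff.1 (hI hy)).1
    · rw [card_insert_of_notMem hxI]
      have h4 : W.card ≤ (W \ R).card + R.card := by
        have := card_le_card (show W ⊆ (W \ R) ∪ R by
          intro y hy
          by_cases h : y ∈ R
          · exact mem_union_right _ h
          · exact mem_union_left _ (mem_sdiff.2 ⟨hy, h⟩))
        exact this.trans (card_union_le _ _)
      nlinarith
    · intro y hy w hw hyw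
      rcases mem_insert.1 hy with hyx | hyI
      · rcases mem_insert.1 hw with hwx | hwI
        · exact absurd (hyx.trans hwx.symm) hyw
        · rw [hyx]
          intro h
          exact (mem_sdiff.1 (hI hwI)).2 (mem_insert_of_mem (mem_union_left _ h))
      · rcases mem_insert.1 hw with hwx | hwI
        · rw [hwx]
          intro h
          exact (mem_sdiff.1 (hI hyI)).2 (mem_insert_of_mem (mem_union_right _
            (mem_filter.2 ⟨(mem_sdiff.1 (hI hyI)).1, h⟩)))
        · exact hind y hyI w hwI hyw

end MP_182bbb_co.H5
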